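import Pool.Agent.H94.AB.EO0
import Pool.Agent.H94.AB.EOP
import Pool.Agent.H94.AB.PTS
import Pool.Agent.H94.AB.CN3
import Pool.Agent.H94.AA.TRN

/-!
# MP_1bad5e_ag: almost all curves with full 2-torsion over every infinite finitely generated field

Let `O` be an infinite integral domain which is finitely generated as a ring, `2 ≠ 0` in `O`, and `K` its field of
fractions.  For `A, B ∈ O[X]` let `E_{A,B}` be the curve `y ^ 2 = x (x - A) (x - B)` over `K(t)`.

Theorem: for every `ε > 0` there are an ideal `I` of finite index in `O` and `n₀` such that for all `n ≥ n₀`, `d = 2 n + 1`,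
and every finite subset `V` of `O` all of whose classes modulo `I` have at least `(1 - ε / (8 (n + 1))) |V| / |O / I|`
elements: of the `|V| ^ (4 n + 4)` pairs `(A, B)` of polynomials of degree at most `d` with coefficients in `V` at least
`(1 - ε) |V| ^ (4 n + 4)` have the following two properties.

* For some surjective ring homomorphism `φ : O → F` onto a finite field of odd characteristic, which is zero on `I`, the
  images of `A`, `B`, `A - B` in `F[X]` have degree `d` and a squarefree product, and the 2-Selmer group of the curve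
  `y ^ 2 = x (x - φ A) (x - φ B)` over `F(t)` has only the 4 elements that come from the 2-torsion.
* All solutions of `y ^ 2 = x (x - A) (x - B)` in `K(t)` have `y = 0`: the Mordell-Weil group of `E_{A,B}` over `K(t)`
  consists of the four 2-torsion points.

Examples: `O = ℤ` and `V = {1, …, N}`, with `|O / I|` dividing `N` or `N → ∞`; the integers of a number field;
`O = 𝔽_p[s]` and the polynomials of degree less than `N`.
-/

set_option autoImplicit false

namespace Pool.Agent.Results.MP_1bad5e_ag.AlmostAllPairs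

open Polynomial IsDedekindDomain

/-- `(P, Q)` represents, over the field `M`, an effective divisor on `D y ^ 2 = ∏ (x - A_k)`
which is disjoint from the points `(A_k, 0)`: the points with `P(x) = 0` and `y = Q(x)`. -/
def IsMumford {M : Type} [Field M] {m : ℕ} (D : M) (A : Fin m → M) (P Q : M[X]) : Prop :=
  P.Monic ∧ (∀ k, P.eval (A k) ≠ 0) ∧ P ∣ C D * Q ^ 2 - ∏ k, (X - C (A k))

/-- The component `k` of the descent map on this divisor: the product of the values of
`D (x - A_k)` over its points. -/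
noncomputable def descent {M : Type} [Field M] (D : M) (P : M[X]) (a : M) : M :=
  (-D) ^ P.natDegree * P.eval a

/-- `δ ∈ (M^*)^m` is in the image of the descent map over `M`, up to squares: the product of
the values on finitely many of the divisors above. -/
def IsValue {M : Type} [Field M] {m : ℕ} (D : M) (A δ : Fin m → M) : Prop :=
  ∃ (r : ℕ) (P Q : Fin r → M[X]) (γ : Fin m → M),
    (∀ i, IsMumford D A (P i) (Q i)) ∧ (∀ k, γ k ≠ 0) ∧
      ∀ k, δ k * γ k ^ 2 = ∏ i, descent D (P i) (A k)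

/-- `δ ∈ (K^*)^m` has product a square and is in the image of the descent map over all
completions of `K = F(t)`: those at the primes of `F[t]` and the one at infinity. -/
structure IsSelmer {F : Type} [Field F] [DecidableEq (RatFunc F)] {m : ℕ}
    (D : RatFunc F) (A δ : Fin m → RatFunc F) : Prop where
  ne_zero : ∀ k, δ k ≠ 0
  product : ∃ y : RatFunc F, ∏ k, δ k = y ^ 2
  finite : ∀ v : HeightOneSpectrum F[X],
    IsValue (algebraMap (RatFunc F) (v.adicCompletion (RatFunc F)) D)
      (fun k => algebraMap (RatFunc F) (v.adicCompletion (RatFunc F)) (A k))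
      (fun k => algebraMap (RatFunc F) (v.adicCompletion (RatFunc F)) (δ k))
  infinity : IsValue (algebraMap (RatFunc F) (RatFunc.CompletionAtInfty F) D)
      (fun k => algebraMap (RatFunc F) (RatFunc.CompletionAtInfty F) (A k))
      (fun k => algebraMap (RatFunc F) (RatFunc.CompletionAtInfty F) (δ k))

/-- The 2-Selmer group: the classes of these `δ` in `(K^*/K^{*2})^m`. -/
def Selmer {F : Type} [Field F] [DecidableEq (RatFunc F)] {m : ℕ}
    (D : RatFunc F) (A : Fin m → RatFunc F) :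
    Set (Fin m → (RatFunc F)ˣ ⧸ (powMonoidHom 2 : (RatFunc F)ˣ →* (RatFunc F)ˣ).range) :=
  {x | ∃ δ : Fin m → (RatFunc F)ˣ, (∀ k, x k = QuotientGroup.mk (δ k)) ∧
    IsSelmer D A fun k => (δ k : RatFunc F)}

/-- `f` has degree at most `d` and its coefficients in the degrees `0, …, d` are in `V`. -/
def Box {O : Type} [CommRing O] (V : Finset O) (d : ℕ) (f : O[X]) : Prop :=
  f.natDegree ≤ d ∧ ∀ i ≤ d, f.coeff i ∈ V

/-- Each class modulo `I` has at least `(1 - δ) |V| / |O / I|` elements in `V`. -/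
def Equidistributed {O : Type} [CommRing O] (I : Ideal O) (δ : ℝ) (V : Finset O) : Prop :=
  ∀ c : O ⧸ I, (1 - δ) * (V.card : ℝ) ≤
    (Nat.card (O ⧸ I) : ℝ) * (Nat.card {v : O // v ∈ V ∧ Ideal.Quotient.mk I v = c} : ℝ)

/-- `A`, `B`, `A - B` have degree `d`, the product is squarefree and the 2-Selmer group of
`y ^ 2 = x (x - A) (x - B)` over `F(t)` has 4 elements. -/
structure Minimal {F : Type} [Field F] [DecidableEq (RatFunc F)] (d : ℕ) (A B : F[X]) : Prop where
  degree_A : A.natDegree = d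
  degree_B : B.natDegree = d
  degree_sub : (A - B).natDegree = d
  squarefree : Squarefree (A * B * (A - B))
  selmer : Nat.card (Selmer (1 : RatFunc F)
    ![0, algebraMap F[X] (RatFunc F) A, algebraMap F[X] (RatFunc F) B]) = 4

open Classical in
/-- The two properties of the pair `(A, B)`. -/
structure Rigid {O : Type} [CommRing O] (K : Type) [Field K] [Algebra O K] (I : Ideal O) (d : ℕ)
    (A B : O[X]) : Prop where
  reduction : ∃ (F : Type) (_ : Field F) (_ : Finite F) (φ : O →+* F), Function.Surjective φ ∧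
    (∀ x ∈ I, φ x = 0) ∧ (2 : F) ≠ 0 ∧ Minimal d (A.map φ) (B.map φ)
  points : ∀ x y : RatFunc K, y ^ 2 = x *
    (x - algebraMap K[X] (RatFunc K) (A.map (algebraMap O K))) *
    (x - algebraMap K[X] (RatFunc K) (B.map (algebraMap O K))) → y = 0

theorem descent_eq {M : Type} [Field M] (D : M) (P : M[X]) (a : M) :
    descent D P a = H94.PM.dvn 1 D P a := by
  rw [descent, H94.PM.dvn, pow_one]

theorem value_iff {M : Type} [Field M] {m : ℕ} (D : M) (A δ : Fin m → M) :
    IsValue D A δ ↔ H94.PM.IsVln 2 1 D A δ := by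
  constructor
  · rintro ⟨r, P, Q, γ, h1, h2, h3⟩
    exact ⟨r, P, Q, γ, h1, h2, fun k => (h3 k).trans
      (Finset.prod_congr rfl fun i _ => descent_eq D (P i) (A k))⟩
  · rintro ⟨r, P, Q, γ, h1, h2, h3⟩
    exact ⟨r, P, Q, γ, h1, h2, fun k => (h3 k).trans
      (Finset.prod_congr rfl fun i _ => (descent_eq D (P i) (A k)).symm)⟩

theorem selmer_iff {F : Type} [Field F] [DecidableEq (RatFunc F)] {m : ℕ} (c : F)
    (A : Fin m → F[X]) (D : F[X]) (δ : Fin m → RatFunc F) :
    IsSelmer (algebraMap F[X] (RatFunc F) (C c * D))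
      (fun k => algebraMap F[X] (RatFunc F) (A k)) δ ↔ H94.PM.IsSln 2 1 c A D δ :=
  ⟨fun h => ⟨h.1, h.2, fun v => (value_iff _ _ _).1 (h.3 v), (value_iff _ _ _).1 h.4⟩,
    fun h => ⟨h.1, h.2, fun v => (value_iff _ _ _).2 (h.3 v), (value_iff _ _ _).2 h.4⟩⟩

theorem selmer_eq {F : Type} [Field F] [DecidableEq (RatFunc F)] {m : ℕ} (c : F)
    (A : Fin m → F[X]) (D : F[X]) :
    Selmer (algebraMap F[X] (RatFunc F) (C c * D))
      (fun k => algebraMap F[X] (RatFunc F) (A k)) = H94.PN.SelC 2 1 c A D := by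
  ext x
  constructor
  · rintro ⟨δ, h1, h2⟩
    exact ⟨δ, h1, (selmer_iff c A D _).1 h2⟩
  · rintro ⟨δ, h1, h2⟩
    exact ⟨δ, h1, (selmer_iff c A D _).2 h2⟩

theorem selmer_pair {F : Type} [Field F] [DecidableEq (RatFunc F)] (A B : F[X]) :
    Selmer (1 : RatFunc F) ![0, algebraMap F[X] (RatFunc F) A, algebraMap F[X] (RatFunc F) B] =
      H94.PN.SelC 2 1 1 ![0, A, B] (1 : F[X]) := by
  rw [← selmer_eq]
  congr 1
  · rw [C_1, mul_one, map_one]
  · funext k
    fin_cases k
    · exact (map_zero _).symm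
    · rfl
    · rfl

theorem minimal_iff {F : Type} [Field F] [DecidableEq (RatFunc F)] (d : ℕ) (A B : F[X]) :
    Minimal d A B ↔ H94.AA.Gd d A B := by
  constructor
  · intro h
    refine ⟨h.1, h.2, h.3, h.4, ?_⟩
    rw [← selmer_pair]
    exact h.5
  · intro h
    refine ⟨h.1, h.2, h.3, h.4, ?_⟩
    rw [selmer_pair]
    exact h.5

open Classical in
/-- the points over `K(t)` -/
theorem no_points {O F K : Type} [CommRing O] [IsDomain O] [Field F] [Finite F] [Field K] [Algebra O K]
    [IsFractionRing O K] {φ : O →+* F} (hφ : H94.AB.Lf O F φ) {d : ℕ} (hd : Odd d) {A B : O[X]}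
    (hA : A.natDegree ≤ d) (hB : B.natDegree ≤ d) (h : H94.AA.Gd d (A.map φ) (B.map φ)) :
    ∀ x y : RatFunc K, y ^ 2 = x *
      (x - algebraMap K[X] (RatFunc K) (A.map (algebraMap O K))) *
      (x - algebraMap K[X] (RatFunc K) (B.map (algebraMap O K))) → y = 0 := by
  obtain ⟨R, _, _, _, r, ι, hι, e⟩ := hφ
  have hc : ∀ f : O[X], (f.map ι).map r.φ = f.map φ := by
    intro f
    rw [Polynomial.map_map, ← e]
  refine H94.AB.pts ι hι A B (H94.AA.trn (r := r) (d := d) ?_ hd ?_)
  · refine ⟨natDegree_map_le.trans hA, natDegree_map_le.trans hB, ?_, ?_, ?_, ?_⟩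
    · rw [hc]
      exact h.dA
    · rw [hc]
      exact h.dB
    · rw [← Polynomial.map_sub, hc, Polynomial.map_sub]
      exact h.dAB
    · rw [← Polynomial.map_sub, hc, hc, hc, Polynomial.map_sub]
      exact h.sqf
  · rw [hc, hc]
    exact H94.AA.mw0 r.two hd h

/-- reductions of an infinite finitely generated domain -/
theorem reductions (O : Type) [CommRing O] [IsDomain O] [Infinite O] [Algebra.FiniteType ℤ O]
    (h2 : (2 : O) ≠ 0) (B : ℕ) : ∃ (F : Type) (_ : Field F) (_ : Finite F) (φ : O →+* F),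
      Function.Surjective φ ∧ B < Nat.card F ∧ (2 : F) ≠ 0 ∧ H94.AB.Lf O F φ := by
  obtain ⟨p, hp⟩ := CharP.exists O
  have key : ∃ (F : Type) (_ : Field F) (_ : Finite F) (φ : O →+* F), Function.Surjective φ ∧
      B < Nat.card F ∧ H94.AB.Lf O F φ := by
    rcases CharP.char_is_prime_or_zero O p with hp' | hp'
    · have : Fact p.Prime := ⟨hp'⟩
      refine H94.AB.eop p ?_ O B
      rintro rfl
      exact h2 (by exact_mod_cast CharP.cast_eq_zero O 2)
    · subst hp'
      have : CharZero O := CharP.charP_to_charZero O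
      exact H94.AB.eo0 O B
  obtain ⟨F, i1, i2, φ, h3, h4, h5⟩ := key
  have h6 : (2 : F) ≠ 0 := by
    obtain ⟨R, _, _, _, r, -⟩ := h5
    exact r.two
  exact ⟨F, i1, i2, φ, h3, h4, h6, h5⟩

/-- The number of the pairs. -/
theorem number {O : Type} [CommRing O] (V : Finset O) (n : ℕ) :
    Nat.card {q : O[X] × O[X] // Box V (2 * n + 1) q.1 ∧ Box V (2 * n + 1) q.2} =
      V.card ^ (4 * n + 4) := by
  have h1 := H94.AB.cva_card V (2 * n + 1)
  rw [show 4 * n + 4 = 2 * (2 * n + 1 + 1) by ring]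
  exact h1

/-- **Theorem.** -/
theorem result (O K : Type) [CommRing O] [IsDomain O] [Infinite O] [Algebra.FiniteType ℤ O]
    (h2 : (2 : O) ≠ 0) [Field K] [Algebra O K] [IsFractionRing O K] (ε : ℝ) (hε : 0 < ε) :
    ∃ (I : Ideal O) (n₀ : ℕ), Finite (O ⧸ I) ∧ ∀ n : ℕ, n₀ ≤ n → ∀ V : Finset O,
      Equidistributed I (ε / (8 * (n + 1))) V →
        Nat.card {q : O[X] × O[X] // Box V (2 * n + 1) q.1 ∧ Box V (2 * n + 1) q.2} =
          V.card ^ (4 * n + 4) ∧
        (1 - ε) * (V.card : ℝ) ^ (4 * n + 4) ≤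
          (Nat.card {q : O[X] × O[X] // Box V (2 * n + 1) q.1 ∧ Box V (2 * n + 1) q.2 ∧
            Rigid K I (2 * n + 1) q.1 q.2} : ℝ) := by
  classical
  obtain ⟨I, n₀, hI, h⟩ := H94.AB.cn3 O (fun F _ φ => H94.AB.Lf O F φ) (reductions O h2) ε hε
  refine ⟨I, n₀, hI, fun n hn V hV => ⟨number V n, ?_⟩⟩
  have h1 := h n hn V hV
  rw [show 4 * n + 4 = 2 * (2 * n + 2) by ring]
  refine h1.trans ?_
  have hfin := H94.AB.cva_fin V (2 * n + 1)
  have h3 : {q : O[X] × O[X] | Box V (2 * n + 1) q.1 ∧ Box V (2 * n + 1) q.2 ∧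
      Rigid K I (2 * n + 1) q.1 q.2}.Finite := hfin.subset fun q hq => ⟨hq.1, hq.2.1⟩
  have h4 := Set.ncard_le_ncard (s := {q : O[X] × O[X] | H94.AB.Bv V (2 * n + 1) q.1 ∧
      H94.AB.Bv V (2 * n + 1) q.2 ∧ ∃ (F : Type) (_ : Field F) (_ : Finite F) (φ : O →+* F),
        Function.Surjective φ ∧ (∀ x ∈ I, φ x = 0) ∧ (2 : F) ≠ 0 ∧ H94.AB.Lf O F φ ∧
          H94.AA.Gd (2 * n + 1) (q.1.map φ) (q.2.map φ)}) (t := {q : O[X] × O[X] |
      Box V (2 * n + 1) q.1 ∧ Box V (2 * n + 1) q.2 ∧ Rigid K I (2 * n + 1) q.1 q.2}) ?_ h3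
  · rw [← Nat.card_coe_set_eq, ← Nat.card_coe_set_eq] at h4
    exact_mod_cast h4
  · rintro q ⟨hA, hB, F, i1, i2, φ, h5, h6, h7, h8, h9⟩
    exact ⟨hA, hB, ⟨F, i1, i2, φ, h5, h6, h7, (minimal_iff _ _ _).2 h9⟩,
      no_points h8 ⟨n, rfl⟩ hA.1 hB.1 h9⟩

end Pool.Agent.Results.MP_1bad5e_ag.AlmostAllPairs
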