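import Pool.Agent.H94.AT.ALL

/-!
# MP_1bad5e_ag: almost all `ℓ`-twists `D z ^ ℓ = ∏ (x - A_k)` over `ℚ(t)`

`ℓ` is a prime, `m ≥ 2` is prime to `ℓ`, `A_1, ..., A_m ∈ ℤ[t]` are distinct.  For an irreducible `v ∈ ℚ[t]` let `L_v` be
the Laplace operator `(L_v x)_k = ∑_i v(A_k - A_i) (x_k - x_i)` on the space `V` of the vectors `x ∈ (ℤ/ℓ)^m` with sum
zero; assume that the `L_v` generate the algebra `End V` and, if `ℓ = 2`, that some `v` divides exactly one of the
differences `A_i - A_k`, `i < k`, and this one with odd multiplicity.  Let `c ≠ 0` be an integer.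

Theorem: for every `ε > 0` and every `B` there are `N₀ > 0`, `n₀` and `M` such that for all `n ≥ n₀` and all `N > 0` with
`N₀ ∣ N` or `N ≥ M (n + 1)`: of the `N ^ n` monic polynomials `D ∈ ℤ[t]` of degree `n` whose other coefficients are in
`{1, …, N}`, at least `(1 - ε) N ^ n` have the following property: for some prime `p > B`, `p ≡ 1` modulo `ℓ`, one of the
prime factors of `N₀`, the reduction of `D` modulo `p` is squarefree and prime to the reductions of the differences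
`A_i - A_k`, and the `(1 - ζ)`-Selmer group of the Jacobian of `c D z ^ ℓ = ∏ (x - A_k)` over `𝔽_p(t)` has only the
`ℓ ^ (m - 1)` elements that come from the `(1 - ζ)`-torsion.
-/

set_option autoImplicit false

namespace Pool.Agent.Results.MP_1bad5e_ag.AlmostAllTwists

open Polynomial IsDedekindDomain

/-- `(P, Q)` represents, over the field `M`, an effective divisor on `D z ^ ℓ = ∏ (x - A_k)`
which is disjoint from the points `(A_k, 0)`: the points with `P(x) = 0` and `z = Q(x)`. -/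
def IsMumford {M : Type} [Field M] {m : ℕ} (ℓ : ℕ) (D : M) (A : Fin m → M) (P Q : M[X]) : Prop :=
  P.Monic ∧ (∀ k, P.eval (A k) ≠ 0) ∧ P ∣ C D * Q ^ ℓ - ∏ k, (X - C (A k))

/-- The component `k` of the descent map on this divisor: the product of the values of
`(-D) ^ α (A_k - x)` over its points. Here `ℓ ∣ α m + 1`, so that this function is an `ℓ`-th power
near the point at infinity. -/
noncomputable def descent {M : Type} [Field M] (α : ℕ) (D : M) (P : M[X]) (a : M) : M :=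
  ((-D) ^ α) ^ P.natDegree * P.eval a

/-- `δ ∈ (M^*)^m` is in the image of the descent map over `M`, up to `ℓ`-th powers: the product of
the values on finitely many of the divisors above. -/
def IsValue {M : Type} [Field M] {m : ℕ} (ℓ α : ℕ) (D : M) (A δ : Fin m → M) : Prop :=
  ∃ (r : ℕ) (P Q : Fin r → M[X]) (γ : Fin m → M),
    (∀ i, IsMumford ℓ D A (P i) (Q i)) ∧ (∀ k, γ k ≠ 0) ∧
      ∀ k, δ k * γ k ^ ℓ = ∏ i, descent α D (P i) (A k)

/-- `δ ∈ (K^*)^m` has product an `ℓ`-th power and is in the image of the descent map over all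
completions of `K = F(t)`: those at the primes of `F[t]` and the one at infinity. -/
structure IsSelmer {F : Type} [Field F] [DecidableEq (RatFunc F)] {m : ℕ} (ℓ α : ℕ)
    (D : RatFunc F) (A δ : Fin m → RatFunc F) : Prop where
  ne_zero : ∀ k, δ k ≠ 0
  product : ∃ y : RatFunc F, ∏ k, δ k = y ^ ℓ
  finite : ∀ v : HeightOneSpectrum F[X],
    IsValue ℓ α (algebraMap (RatFunc F) (v.adicCompletion (RatFunc F)) D)
      (fun k => algebraMap (RatFunc F) (v.adicCompletion (RatFunc F)) (A k))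
      (fun k => algebraMap (RatFunc F) (v.adicCompletion (RatFunc F)) (δ k))
  infinity : IsValue ℓ α (algebraMap (RatFunc F) (RatFunc.CompletionAtInfty F) D)
      (fun k => algebraMap (RatFunc F) (RatFunc.CompletionAtInfty F) (A k))
      (fun k => algebraMap (RatFunc F) (RatFunc.CompletionAtInfty F) (δ k))

/-- The Selmer group: the classes of these `δ` in `(K^*/K^{*ℓ})^m`. -/
def Selmer {F : Type} [Field F] [DecidableEq (RatFunc F)] {m : ℕ} (ℓ α : ℕ)
    (D : RatFunc F) (A : Fin m → RatFunc F) :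
    Set (Fin m → (RatFunc F)ˣ ⧸ (powMonoidHom ℓ : (RatFunc F)ˣ →* (RatFunc F)ˣ).range) :=
  {x | ∃ δ : Fin m → (RatFunc F)ˣ, (∀ k, x k = QuotientGroup.mk (δ k)) ∧
    IsSelmer ℓ α D A fun k => (δ k : RatFunc F)}

/-- The Laplace operator of `v` on `(ℤ/ℓ)^m`: `x ↦ (∑_i v(A_k - A_i) (x_k - x_i))_k`. -/
noncomputable def laplace (ℓ : ℕ) {m : ℕ} {F : Type} [Field F] (A : Fin m → F[X]) (v : F[X]) :
    Module.End (ZMod ℓ) (Fin m → ZMod ℓ) where
  toFun x k := ∑ i, ((multiplicity v (A k - A i) : ℕ) : ZMod ℓ) * (x k - x i)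
  map_add' x y := by
    funext k
    simp only [Pi.add_apply, ← Finset.sum_add_distrib]
    exact Finset.sum_congr rfl fun i _ => by ring
  map_smul' r x := by
    funext k
    simp only [Pi.smul_apply, smul_eq_mul, RingHom.id_apply, Finset.mul_sum]
    exact Finset.sum_congr rfl fun i _ => by ring

/-- Every endomorphism which preserves the space of the vectors with sum zero coincides there with an element of
the algebra generated by the Laplace operators of the irreducible polynomials. -/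
def Generating (ℓ : ℕ) {m : ℕ} {F : Type} [Field F] (A : Fin m → F[X]) : Prop :=
  ∀ f : Module.End (ZMod ℓ) (Fin m → ZMod ℓ),
    (∀ x : Fin m → ZMod ℓ, ∑ k, x k = 0 → ∑ k, f x k = 0) →
    ∃ g ∈ Algebra.adjoin (ZMod ℓ) {L | ∃ v : F[X], Irreducible v ∧ L = laplace ℓ A v},
      ∀ x : Fin m → ZMod ℓ, ∑ k, x k = 0 → g x = f x

/-- `v` is irreducible and divides one difference with odd multiplicity and no other difference. -/
def Detecting {F : Type} [Field F] {m : ℕ} (A : Fin m → F[X]) (v : F[X]) : Prop :=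
  Irreducible v ∧ ∃ i k : Fin m, i ≠ k ∧ ¬ 2 ∣ multiplicity v (A i - A k) ∧
    ∀ a b, a ≠ b → ¬ (a = i ∧ b = k) → ¬ (a = k ∧ b = i) → ¬ v ∣ A a - A b

/-- `D` is monic of degree `n`, the coefficients in the degrees `0, …, n - 1` are in `{1, …, N}`. -/
def Box (N n : ℕ) (D : ℤ[X]) : Prop :=
  D.Monic ∧ D.natDegree = n ∧ ∀ i < n, 1 ≤ D.coeff i ∧ D.coeff i ≤ N

/-- `D` is squarefree and prime to the differences, and the Selmer group has `ℓ ^ (m - 1)` elements. -/
structure Minimal {F : Type} [Field F] [DecidableEq (RatFunc F)] {m : ℕ} (ℓ α : ℕ) (c : F)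
    (A : Fin m → F[X]) (D : F[X]) : Prop where
  squarefree : Squarefree D
  coprime : ∀ i k, i ≠ k → IsCoprime D (A i - A k)
  selmer : Nat.card (Selmer ℓ α (algebraMap F[X] (RatFunc F) (C c * D))
    fun k => algebraMap F[X] (RatFunc F) (A k)) = ℓ ^ (m - 1)

theorem selmer_iff {F : Type} [Field F] [DecidableEq (RatFunc F)] {m ℓ α : ℕ} (c : F)
    (A : Fin m → F[X]) (D : F[X]) (δ : Fin m → RatFunc F) :
    IsSelmer ℓ α (algebraMap F[X] (RatFunc F) (C c * D))
      (fun k => algebraMap F[X] (RatFunc F) (A k)) δ ↔ H94.PM.IsSln ℓ α c A D δ :=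
  ⟨fun h => ⟨h.1, h.2, h.3, h.4⟩, fun h => ⟨h.1, h.2, h.3, h.4⟩⟩

theorem selmer_eq {F : Type} [Field F] [DecidableEq (RatFunc F)] {m ℓ α : ℕ} (c : F)
    (A : Fin m → F[X]) (D : F[X]) :
    Selmer ℓ α (algebraMap F[X] (RatFunc F) (C c * D))
      (fun k => algebraMap F[X] (RatFunc F) (A k)) = H94.PN.SelC ℓ α c A D := by
  ext x
  constructor
  · rintro ⟨δ, h1, h2⟩
    exact ⟨δ, h1, (selmer_iff c A D _).1 h2⟩
  · rintro ⟨δ, h1, h2⟩
    exact ⟨δ, h1, (selmer_iff c A D _).2 h2⟩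

theorem minimal_iff {F : Type} [Field F] [DecidableEq (RatFunc F)] {m : ℕ} (ℓ α : ℕ) (c : F)
    (A : Fin m → F[X]) (D : F[X]) : Minimal ℓ α c A D ↔ H94.AT.Gt ℓ α c A D := by
  constructor
  · intro h
    refine ⟨h.1, h.2, ?_⟩
    rw [← selmer_eq]
    exact h.3
  · intro h
    refine ⟨h.1, h.2, ?_⟩
    rw [selmer_eq]
    exact h.3

open Classical in
/-- **Theorem.** -/
theorem result (ℓ : ℕ) (hℓ : ℓ.Prime) (m α : ℕ) (hm2 : 2 ≤ m) (hm : Nat.Coprime m ℓ)
    (hα : ℓ ∣ α * m + 1) (A : Fin m → ℤ[X]) (hA : ∀ i k, i ≠ k → A i ≠ A k)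
    (hG : Generating ℓ fun k => (A k).map (Int.castRingHom ℚ))
    (hd : ℓ = 2 → ∃ v, Detecting (fun k => (A k).map (Int.castRingHom ℚ)) v)
    (c : ℤ) (hc : c ≠ 0) (B : ℕ) (ε : ℝ) (hε : 0 < ε) : ∃ N₀ n₀ M : ℕ, 0 < N₀ ∧
    ∀ N n : ℕ, 0 < N → n₀ ≤ n → (N₀ ∣ N ∨ M * (n + 1) ≤ N) →
      Nat.card {D : ℤ[X] // Box N n D} = N ^ n ∧
      (1 - ε) * (N : ℝ) ^ n ≤ (Nat.card {D : ℤ[X] // Box N n D ∧ ∃ p, p ∣ N₀ ∧ B < p ∧
        p ≡ 1 [MOD ℓ] ∧ ∃ _ : Fact p.Prime, Minimal ℓ α (c : ZMod p)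
          (fun k => (A k).map (Int.castRingHom (ZMod p))) (D.map (Int.castRingHom (ZMod p)))} : ℝ) := by
  have : Fact ℓ.Prime := ⟨hℓ⟩
  obtain ⟨N₀, n₀, M, h0, h⟩ := H94.AT.at_all hm2 hm hα A hA hG hd c hc B ε hε
  refine ⟨N₀, n₀, M, h0, fun N n hN hn hNM => ⟨H94.AT.bx1_card N n, ?_⟩⟩
  refine (h N n hN hn hNM).trans (le_of_eq ?_)
  congr 1
  refine Nat.card_congr (Equiv.subtypeEquivRight fun D => ?_)
  constructor
  · rintro ⟨h2, p, h3, h4, h5, hp, h6⟩
    exact ⟨h2, p, h3, h4, h5, hp, (minimal_iff _ _ _ _ _).2 h6⟩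
  · rintro ⟨h2, p, h3, h4, h5, hp, h6⟩
    exact ⟨h2, p, h3, h4, h5, hp, (minimal_iff _ _ _ _ _).1 h6⟩

end Pool.Agent.Results.MP_1bad5e_ag.AlmostAllTwists
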