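import Pool.Agent.H94.PL.Fin

/-!
# MP_1bad5e_ag: Selmer groups of the `ℓ`-twists `D z ^ ℓ = ∏ (x - A_k)` on average

`F` is a finite field with `q` elements, `ℓ` an odd prime dividing `q - 1`, `K = F(t)`,
`A_1, ..., A_m ∈ F[t]` with `m` prime to `ℓ`, such that all differences `A_i - A_k`, `i ≠ k`,
have the same degree `a ≥ 1` and `∏_{i < k} (A_i - A_k)` is squarefree. For `c ∈ F^*` and
`D ∈ F[t]` let `J_D` be the Jacobian of the curve `c D z ^ ℓ = (x - A_1) ... (x - A_m)` over `K`,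
on which `ζ ∈ μ_ℓ` acts. The `(1 - ζ)`-Selmer group of `J_D` is a subgroup of `(K^*/K^{*ℓ})^m`, and
contains the image of the group `J_D(K)[1 - ζ]`, which has order `ℓ ^ (m - 1)`.

Theorem: let `D` run through the monic squarefree polynomials of degree `n`, prime to all
`A_i - A_k`, where `n ≡ m a` modulo `ℓ` (so that `J_D` has good reduction at infinity). Then,
for `n → ∞`, for at least `1 - 1 / (ℓ - 1) - ε` of these `D` the Selmer group is the image of
`J_D(K)[1 - ζ]`.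
-/

namespace Pool.Agent.Results.MP_1bad5e_ag.CyclicTwists

open Polynomial IsDedekindDomain

/-- `(P, Q)` represents, over the field `M`, an effective divisor on `D z ^ ℓ = ∏ (x - A_k)`
which is disjoint from the points `(A_k, 0)`: the points with `P(x) = 0` and `z = Q(x)`. -/
def IsMumford {M : Type} [Field M] {m : ℕ} (ℓ : ℕ) (D : M) (A : Fin m → M) (P Q : M[X]) : Prop :=
  P.Monic ∧ (∀ k, P.eval (A k) ≠ 0) ∧ P ∣ C D * Q ^ ℓ - ∏ k, (X - C (A k))

/-- The component `k` of the descent map on this divisor: the product of the values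
`D ^ α (x - A_k)` over its points, up to sign. Here `ℓ ∣ α m + 1`, so that the function
`D ^ α (x - A_k)` is an `ℓ`-th power near the point at infinity. -/
noncomputable def descent {M : Type} [Field M] (α : ℕ) (D : M) (P : M[X]) (a : M) : M :=
  (D ^ α) ^ P.natDegree * P.eval a

/-- `δ ∈ (M^*)^m` is in the image of the descent map over `M`, up to `ℓ`-th powers: the product of
the values on finitely many of the divisors above. -/
def IsValue {M : Type} [Field M] {m : ℕ} (ℓ α : ℕ) (D : M) (A δ : Fin m → M) : Prop :=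
  ∃ (r : ℕ) (P Q : Fin r → M[X]) (γ : Fin m → M),
    (∀ i, IsMumford ℓ D A (P i) (Q i)) ∧ (∀ k, γ k ≠ 0) ∧
      ∀ k, δ k * γ k ^ ℓ = ∏ i, descent α D (P i) (A k)

/-- `δ ∈ (K^*)^m` has product an `ℓ`-th power and is in the image of the descent map over all
completions of `K = F(t)`: those at the primes of `F[t]` and the one at infinity. -/
structure IsSelmer {F : Type} [Field F] [DecidableEq (RatFunc F)] {m : ℕ} (ℓ α : ℕ)
    (D : RatFunc F) (A δ : Fin m → RatFunc F) : Prop where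
  ne_zero : ∀ k, δ k ≠ 0
  product : ∃ y : RatFunc F, ∏ k, δ k = y ^ ℓ
  finite : ∀ v : HeightOneSpectrum F[X],
    IsValue ℓ α (algebraMap (RatFunc F) (v.adicCompletion (RatFunc F)) D)
      (fun k => algebraMap (RatFunc F) (v.adicCompletion (RatFunc F)) (A k))
      (fun k => algebraMap (RatFunc F) (v.adicCompletion (RatFunc F)) (δ k))
  infinity : IsValue ℓ α (algebraMap (RatFunc F) (RatFunc.CompletionAtInfty F) D)
      (fun k => algebraMap (RatFunc F) (RatFunc.CompletionAtInfty F) (A k))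
      (fun k => algebraMap (RatFunc F) (RatFunc.CompletionAtInfty F) (δ k))

/-- `δ` is, up to `ℓ`-th powers, in the image of the group generated by the classes `T_k` of
`(A_k, 0)` minus the point at infinity; the image of `∑ s_k T_k`, where `ℓ ∣ ∑ s_k`, has the
components `D ^ {s_k} ∏_{i ≠ k} (A_k - A_i) ^ {s_i - s_k}`. (The relation `∑ T_k = 0` allows to
assume `ℓ ∣ ∑ s_k`, as `m` is prime to `ℓ`.) -/
def IsTorsionClass {F : Type} [Field F] {m : ℕ} (ℓ : ℕ) (D : RatFunc F)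
    (A δ : Fin m → RatFunc F) : Prop :=
  ∃ s : Fin m → ℤ, (ℓ : ℤ) ∣ ∑ k, s k ∧ ∀ k, ∃ y : RatFunc F, y ≠ 0 ∧
    δ k = D ^ s k * (∏ i ∈ Finset.univ.erase k, (A k - A i) ^ (s i - s k)) * y ^ ℓ

/-- The `(1 - ζ)`-Selmer group of the Jacobian of `D z ^ ℓ = ∏ (x - A_k)` is the image of the group
generated by the `T_k`. -/
def SelmerIsTorsion {F : Type} [Field F] [DecidableEq (RatFunc F)] {m : ℕ} (ℓ α : ℕ)
    (D : RatFunc F) (A : Fin m → RatFunc F) : Prop :=
  ∀ δ : Fin m → RatFunc F, IsSelmer ℓ α D A δ ↔ IsTorsionClass ℓ D A δ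

/-- `∏_{i < k} (A_i - A_k)` -/
noncomputable def disc {F : Type} [Field F] {m : ℕ} (A : Fin m → F[X]) : F[X] :=
  ∏ p ∈ (Finset.univ : Finset (Fin m × Fin m)).filter (fun p => p.1 < p.2), (A p.1 - A p.2)

/-- The twisting polynomials of degree `n`: monic, squarefree and prime to all `A_i - A_k`. -/
def Twist {F : Type} [Field F] {m : ℕ} (A : Fin m → F[X]) (n : ℕ) (D : F[X]) : Prop :=
  D.Monic ∧ D.natDegree = n ∧ Squarefree D ∧ IsCoprime D (disc A)

theorem selmer_iff {F : Type} [Field F] [DecidableEq (RatFunc F)] {m ℓ α : ℕ} (c : F)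
    (A : Fin m → F[X]) (D : F[X]) (δ : Fin m → RatFunc F) :
    IsSelmer ℓ α (algebraMap F[X] (RatFunc F) (C c * D))
      (fun k => algebraMap F[X] (RatFunc F) (A k)) δ ↔ H94.PL.IsSl ℓ α c A D δ :=
  ⟨fun h => ⟨h.1, h.2, h.3, h.4⟩, fun h => ⟨h.1, h.2, h.3, h.4⟩⟩

/-- **Theorem.** -/
theorem result (F : Type) [Field F] [Finite F] [DecidableEq (RatFunc F)] (ℓ : ℕ) (hℓ : ℓ.Prime)
    (h2 : ℓ ≠ 2) (hq : ℓ ∣ Nat.card F - 1) (m α a : ℕ) (hm : Nat.Coprime m ℓ)
    (hα : ℓ ∣ α * m + 1) (ha : 1 ≤ a) (A : Fin m → F[X])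
    (hA : ∀ i k, i ≠ k → (A i - A k).natDegree = a) (hs : Squarefree (disc A))
    (c : F) (hc : c ≠ 0) (ε : ℝ) (hε : 0 < ε) :
    ∃ κ : ℝ, 0 < κ ∧ ∃ N : ℕ, ∀ n ≥ N, n ≡ m * a [MOD ℓ] →
      κ * (Nat.card F : ℝ) ^ n ≤ (Nat.card {D : F[X] // Twist A n D} : ℝ) ∧
      (1 - 1 / ((ℓ : ℝ) - 1) - ε) * (Nat.card {D : F[X] // Twist A n D} : ℝ) ≤
        (Nat.card {D : F[X] // Twist A n D ∧
          SelmerIsTorsion ℓ α (algebraMap F[X] (RatFunc F) (C c * D))
            (fun k => algebraMap F[X] (RatFunc F) (A k))} : ℝ) := by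
  classical
  obtain ⟨κ, hκ, N, hN⟩ := H94.PL.mainL hℓ h2 hq hm hα hc (A := A) hs ha hA ε hε
  refine ⟨κ, hκ, N, fun n hn hmod => ?_⟩
  obtain ⟨h1, h3⟩ := hN n hn hmod
  have e1 : Nat.card {D : F[X] // Twist A n D} = (H94.PL.Cls (H94.PL.dl A) n).card := by
    have : (H94.PL.Cls (H94.PL.dl A) n : Set F[X]) = {D : F[X] | Twist A n D} := by
      ext D; rw [Finset.mem_coe, H94.PL.mem_Cls]; rfl
    rw [← Set.ncard_coe_finset, this]
    rfl
  rw [e1]
  refine ⟨h1, h3.trans ?_⟩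
  have e2 : ((H94.PL.Cls (H94.PL.dl A) n).filter fun D =>
      ∀ δ, H94.PL.IsSl ℓ α c A D δ ↔ H94.PL.IsTc ℓ c A D δ).card ≤
      Nat.card {D : F[X] // Twist A n D ∧
          SelmerIsTorsion ℓ α (algebraMap F[X] (RatFunc F) (C c * D))
            (fun k => algebraMap F[X] (RatFunc F) (A k))} := by
    rw [← Set.ncard_coe_finset]
    refine Set.ncard_le_ncard (t := {D : F[X] | Twist A n D ∧
          SelmerIsTorsion ℓ α (algebraMap F[X] (RatFunc F) (C c * D))
            (fun k => algebraMap F[X] (RatFunc F) (A k))}) ?_ ?_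
    · intro D hD
      rw [Finset.mem_coe, Finset.mem_filter, H94.PL.mem_Cls] at hD
      refine ⟨hD.1, fun δ => ?_⟩
      rw [selmer_iff]
      exact hD.2 δ
    · exact (H94.PL.finite_Cl (H94.PL.dl A) n).subset fun D hD => hD.1
  exact_mod_cast e2

end Pool.Agent.Results.MP_1bad5e_ag.CyclicTwists
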