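import Pool.Agent.H94.TC.ParTw

/-!
# MP_1bad5e_ag: the surfaces `D y² = f(t, x)` with `f(t, x) = 0` of odd class number

`F` is a field (for the Tate conjecture: a finite field of odd characteristic), `K = F(t)`,
`f ∈ F[t][x]` is monic in `x` of odd degree and the affine plane curve `C : f(t, x) = 0` is
irreducible and normal, with coordinate ring `O = F[t][x]/(f)`; `D ∈ F[t]` is a polynomial such
that there is only one prime of `O` above each prime factor of `D` (for instance `D = 1`).
`J` is the Jacobian of the hyperelliptic curve `D y² = f(x)` over `K`.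

If the class group of `O` has no element of order two, then every element of the `2`-Selmer group
of `J` is represented by a unit of `O`; if moreover `O` has no nonconstant units (for instance if
`C` has one rational place at infinity) then the Selmer group and `J(K)/2J(K)` vanish.
-/

namespace Pool.Agent.Results.MP_1bad5e_ag.OddClassNumber

open Polynomial IsDedekindDomain

/-- The polynomial `f` regarded as a polynomial in `x` over `K = F(t)`. -/
noncomputable def overK {F : Type} [Field F] (f : F[X][X]) : (RatFunc F)[X] :=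
  f.map (algebraMap F[X] (RatFunc F))

/-- The polynomial `f` regarded as a polynomial in `x` over the completion `K_v`. -/
noncomputable def overKv {F : Type} [Field F] (f : F[X][X]) (v : HeightOneSpectrum F[X]) :
    (v.adicCompletion (RatFunc F))[X] :=
  (overK f).map (algebraMap (RatFunc F) (v.adicCompletion (RatFunc F)))

/-- The image of `D ∈ F[t]` in the completion `K_v`. -/
noncomputable def constKv {F : Type} [Field F] (D : F[X]) (v : HeightOneSpectrum F[X]) :
    v.adicCompletion (RatFunc F) :=
  algebraMap (RatFunc F) (v.adicCompletion (RatFunc F)) (algebraMap F[X] (RatFunc F) D)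

/-- The natural map from `O = F[t][x]/(f)` to `L = K[x]/(f)`. -/
noncomputable def toL {F : Type} [Field F] (f : F[X][X]) :
    AdjoinRoot f →+* AdjoinRoot (overK f) :=
  AdjoinRoot.map (algebraMap F[X] (RatFunc F)) f (overK f) dvd_rfl

/-- `(P, Q)` is the Mumford representation, over the field `k`, of an effective divisor on
`c y² = g(x)` which is disjoint from the points with `y = 0`: `P` is monic, prime to `g`, and
divides `c Q² - g`. -/
def IsMumford {k : Type} [Field k] (c : k) (g P Q : k[X]) : Prop :=
  P.Monic ∧ IsCoprime P g ∧ P ∣ C c * Q ^ 2 - g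

/-- The value `∏ (c x(p) - c θ) = (-c)^r P(θ)` of the `x - θ` map on that divisor, in `k[x]/(g)`,
where `θ` is the class of `x` and `r` is the degree of `P`; the monic equation of the curve
`c y² = g(x)` of degree `d` is `Y² = c^d g(X / c)`, with `X = c x`. -/
noncomputable def descent {k : Type} [Field k] (c : k) (g P : k[X]) : AdjoinRoot g :=
  AdjoinRoot.mk g (C (-c)) ^ P.natDegree * AdjoinRoot.mk g P

/-- `δ = Δ(θ) ∈ L^*` satisfies the conditions of the `2`-Selmer group of the Jacobian of
`D y² = f(x)` at all finite places of `K = F(t)`: its norm to `K` is a square and, for every prime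
`v` of `F[t]`, it is in `L ⊗ K_v` a square times a value of the `x - θ` map. -/
structure IsSelmer {F : Type} [Field F] (D : F[X]) (f : F[X][X]) (Δ : (RatFunc F)[X]) : Prop where
  coprime : IsCoprime Δ (overK f)
  norm : IsSquare (Algebra.norm (RatFunc F) (AdjoinRoot.mk (overK f) Δ))
  locally : ∀ v : HeightOneSpectrum F[X], ∃ P Q : (v.adicCompletion (RatFunc F))[X],
    IsMumford (constKv D v) (overKv f v) P Q ∧ ∃ γ : AdjoinRoot (overKv f v),
      AdjoinRoot.mk (overKv f v)
        (Δ.map (algebraMap (RatFunc F) (v.adicCompletion (RatFunc F)))) * γ ^ 2 =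
      descent (constKv D v) (overKv f v) P

/-- There is at most one prime ideal of `O = F[t][x]/(f)` above each prime factor of `D`. -/
def NonsplitFactors {F : Type} [Field F] (D : F[X]) (f : F[X][X]) : Prop :=
  ∀ P : F[X], Prime P → P ∣ D → ∀ w w' : Ideal (AdjoinRoot f), w.IsPrime → w'.IsPrime →
    algebraMap F[X] (AdjoinRoot f) P ∈ w → algebraMap F[X] (AdjoinRoot f) P ∈ w' → w = w'

theorem locImTw_of_isSelmer {F : Type} [Field F] {D : F[X]} {f : F[X][X]} {Δ : (RatFunc F)[X]}
    (h : IsSelmer D f Δ) (v : HeightOneSpectrum F[X]) : H94.TC.LocImTw f D v Δ := by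
  obtain ⟨P, Q, ⟨hP, hcop, hPQ⟩, γ, hγ⟩ := h.locally v
  obtain ⟨G, rfl⟩ := AdjoinRoot.mk_surjective γ
  refine ⟨P, Q, G, hP, hcop, hPQ, ?_⟩
  have h1 : AdjoinRoot.mk (overKv f v)
      (Δ.map (algebraMap (RatFunc F) (v.adicCompletion (RatFunc F))) * G ^ 2) =
      AdjoinRoot.mk (overKv f v) ((-C (constKv D v)) ^ P.natDegree * P) := by
    rw [map_mul, map_pow, hγ, descent, map_mul, map_pow, C_neg]
  exact AdjoinRoot.mk_eq_mk.1 h1

/-- the norm of a value of the `x - θ` map is a square -/
theorem isSquare_norm_descent {k : Type} [Field k] (c : k) (g : k[X]) (hg : g.Monic)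
    (hodd : Odd g.natDegree) (P Q : k[X]) (h : IsMumford c g P Q) :
    IsSquare (Algebra.norm k (descent c g P)) := by
  obtain ⟨hP, hcop, hPQ⟩ := h
  by_cases hc : c = 0
  · subst hc
    -- then `P` divides `g`, so `P = 1`
    have h1 : P ∣ g := by
      have := hPQ
      rw [C_0, zero_mul, zero_sub, dvd_neg] at this
      exact this
    have h2 : IsUnit P := hcop.isUnit_of_dvd' dvd_rfl h1
    have h3 : P = 1 := hP.eq_one_of_isUnit h2
    subst h3
    rw [descent, natDegree_one, pow_zero, one_mul, map_one, map_one]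
    exact ⟨1, by rw [one_mul]⟩
  · -- `c² Q² - c g` is a multiple of `P`
    have hfree : Module.Free k (AdjoinRoot g) := hg.free_adjoinRoot
    have hfin : Module.Finite k (AdjoinRoot g) := hg.finite_adjoinRoot
    have hrank : Module.finrank k (AdjoinRoot g) = g.natDegree :=
      finrank_quotient_span_eq_natDegree' hg
    have h2 := H94.TC.norm_eq_resultant P hP (C c * g)
    have h1 : AdjoinRoot.mk P (C c * g) = (AdjoinRoot.mk P (C c * Q)) ^ 2 := by
      rw [← map_pow, eq_comm, AdjoinRoot.mk_eq_mk]
      obtain ⟨R, hR⟩ := hPQ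
      exact ⟨C c * R, by rw [mul_pow]; linear_combination (C c) * hR⟩
    rw [h1, map_pow] at h2
    have h3 : descent c g P = AdjoinRoot.mk g (C (-c)) ^ P.natDegree * AdjoinRoot.mk g P := rfl
    have h4 : Algebra.norm k (AdjoinRoot.mk g (C (-c))) = (-c) ^ g.natDegree := by
      have : AdjoinRoot.mk g (C (-c)) = algebraMap k (AdjoinRoot g) (-c) := rfl
      rw [this, Algebra.norm_algebraMap, hrank]
    rw [h3, map_mul, map_pow, h4, H94.TC.norm_eq_resultant g hg]
    have hne : c ≠ 0 := hc
    rw [natDegree_C_mul hne, resultant_C_mul_right] at h2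
    obtain ⟨l, hl⟩ := hodd
    have h5 : (resultant g P g.natDegree P.natDegree) =
        (-1) ^ (g.natDegree * P.natDegree) * (resultant P g P.natDegree g.natDegree) :=
      resultant_comm g P _ _
    have h6 : ((-c) ^ g.natDegree) ^ P.natDegree *
        resultant g P g.natDegree P.natDegree =
        (c ^ l) ^ P.natDegree * (c ^ l) ^ P.natDegree *
          (c ^ P.natDegree * resultant P g P.natDegree g.natDegree) := by
      rw [h5, neg_pow, mul_pow, ← pow_mul (-1 : k)]
      have h7 : ((-1 : k)) ^ (g.natDegree * P.natDegree) * (-1) ^ (g.natDegree * P.natDegree) = 1 := by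
        rw [← mul_pow]; simp
      have h8 : (c ^ g.natDegree) ^ P.natDegree =
          (c ^ l) ^ P.natDegree * (c ^ l) ^ P.natDegree * c ^ P.natDegree := by
        rw [← mul_pow, ← mul_pow, hl]
        congr 1
        ring
      rw [h8]
      linear_combination ((c ^ l) ^ P.natDegree * (c ^ l) ^ P.natDegree * c ^ P.natDegree *
        resultant P g P.natDegree g.natDegree) * h7
    rw [h6, ← h2]
    exact ⟨(c ^ l) ^ P.natDegree * Algebra.norm k (AdjoinRoot.mk P (C c * Q)), by ring⟩

theorem result (F : Type) [Field F] (f : F[X][X]) (hf : f.Monic) (hodd : Odd f.natDegree)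
    [IsDomain (AdjoinRoot f)] [IsIntegrallyClosed (AdjoinRoot f)]
    (hcl : ∀ c : ClassGroup (AdjoinRoot f), c ^ 2 = 1 → c = 1)
    (D : F[X]) (hD : D ≠ 0) (hns : NonsplitFactors D f) :
    (∀ Δ : (RatFunc F)[X], IsSelmer D f Δ → ∃ (u : (AdjoinRoot f)ˣ) (z : AdjoinRoot (overK f)),
      AdjoinRoot.mk (overK f) Δ = toL f u * z ^ 2) ∧
    ((∀ u : (AdjoinRoot f)ˣ, ∃ c : F, (u : AdjoinRoot f) = algebraMap F (AdjoinRoot f) c) →
      (∀ Δ : (RatFunc F)[X], IsSelmer D f Δ → IsSquare (AdjoinRoot.mk (overK f) Δ)) ∧
      (∀ P Q : (RatFunc F)[X], IsMumford (algebraMap F[X] (RatFunc F) D) (overK f) P Q →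
        IsSquare (descent (algebraMap F[X] (RatFunc F) D) (overK f) P))) := by
  have h1 : ∀ Δ : (RatFunc F)[X], IsSelmer D f Δ →
      ∃ (u : (AdjoinRoot f)ˣ) (z : AdjoinRoot (overK f)),
      AdjoinRoot.mk (overK f) Δ = toL f u * z ^ 2 := by
    intro Δ h
    exact H94.TC.final_tw f hf hodd hcl D hns Δ h.coprime h.norm (locImTw_of_isSelmer h)
  refine ⟨h1, fun hu => ?_⟩
  have h2 : ∀ Δ : (RatFunc F)[X], IsSelmer D f Δ → IsSquare (AdjoinRoot.mk (overK f) Δ) := by
    intro Δ h
    obtain ⟨u, z, huz⟩ := h1 Δ h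
    obtain ⟨c, hc⟩ := hu u
    -- the unit is a constant
    have hmonic : (overK f).Monic := hf.map _
    have h3 : toL f u = algebraMap (RatFunc F) (AdjoinRoot (overK f))
        (algebraMap F[X] (RatFunc F) (C c)) := by
      rw [hc]
      have h4 : algebraMap F (AdjoinRoot f) c = AdjoinRoot.mk f (C (C c)) := rfl
      have h5 := H94.TC.toField_mk (RatFunc F) f (C (C c))
      rw [Polynomial.map_C] at h5
      rw [h4]
      exact h5
    have hfree : Module.Free (RatFunc F) (AdjoinRoot (overK f)) := hmonic.free_adjoinRoot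
    have hfin : Module.finrank (RatFunc F) (AdjoinRoot (overK f)) = f.natDegree := by
      rw [← hf.natDegree_map (algebraMap F[X] (RatFunc F))]
      exact finrank_quotient_span_eq_natDegree' hmonic
    obtain ⟨s, hs⟩ := h.norm
    have h6 := hs
    rw [huz, h3, map_mul, map_pow, Algebra.norm_algebraMap, hfin] at h6
    obtain ⟨k, hk⟩ := hodd
    set c' := algebraMap F[X] (RatFunc F) (C c) with hc'
    have hdelta : AdjoinRoot.mk (overK f) Δ ≠ 0 := by
      intro h0
      obtain ⟨a, b, hab⟩ := h.coprime
      have h7 := congrArg (AdjoinRoot.mk (overK f)) hab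
      rw [map_add, map_mul, map_mul, h0, AdjoinRoot.mk_self, mul_zero, mul_zero, add_zero,
        map_one] at h7
      haveI : Fact (Irreducible (overK f)) := ⟨H94.TC.irreducible_map (RatFunc F) f hf⟩
      exact zero_ne_one h7
    haveI : Fact (Irreducible (overK f)) := ⟨H94.TC.irreducible_map (RatFunc F) f hf⟩
    have hc0 : c' ≠ 0 := by
      intro h0
      rw [huz, h3, h0, map_zero, zero_mul] at hdelta
      exact hdelta rfl
    have hz0 : z ≠ 0 := by
      rintro rfl
      rw [huz, zero_pow two_ne_zero, mul_zero] at hdelta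
      exact hdelta rfl
    have hNz : Algebra.norm (RatFunc F) z ≠ 0 := by
      haveI : Module.Finite (RatFunc F) (AdjoinRoot (overK f)) := hmonic.finite_adjoinRoot
      rw [Ne, Algebra.norm_eq_zero_iff]
      exact hz0
    have h8 : c' = (s / (c' ^ k * Algebra.norm (RatFunc F) z)) ^ 2 := by
      rw [div_pow, eq_div_iff (pow_ne_zero 2 (mul_ne_zero (pow_ne_zero k hc0) hNz)), sq s, ← h6,
        hk]
      ring
    rw [huz, h3, h8, map_pow]
    exact ⟨algebraMap (RatFunc F) (AdjoinRoot (overK f))
      (s / (c' ^ k * Algebra.norm (RatFunc F) z)) * z, by ring⟩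
  refine ⟨h2, fun P Q hPQ => ?_⟩
  set DK := algebraMap F[X] (RatFunc F) D with hDK
  have hDK0 : DK ≠ 0 := by
    rw [hDK, Ne, FaithfulSMul.algebraMap_eq_zero_iff]; exact hD
  have hmonic : (overK f).Monic := hf.map _
  have hdeg : Odd (overK f).natDegree := by
    rw [overK, hf.natDegree_map]; exact hodd
  have h9 : descent DK (overK f) P = AdjoinRoot.mk (overK f) (C (-DK) ^ P.natDegree * P) := by
    rw [descent, map_mul, map_pow]
  have h10 := isSquare_norm_descent DK (overK f) hmonic hdeg P Q hPQ
  obtain ⟨hP, hcop, hdvd⟩ := hPQ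
  rw [h9] at h10 ⊢
  have hunit : IsUnit (C (-DK) ^ P.natDegree : (RatFunc F)[X]) := by
    refine IsUnit.pow _ ?_
    rw [isUnit_C, isUnit_iff_ne_zero]
    exact neg_ne_zero.2 hDK0
  refine h2 _ ⟨?_, h10, fun v => ?_⟩
  · exact (isCoprime_mul_unit_left_left hunit P (overK f)).2 hcop
  · refine ⟨P.map (algebraMap (RatFunc F) (v.adicCompletion (RatFunc F))),
      Q.map (algebraMap (RatFunc F) (v.adicCompletion (RatFunc F))),
      ⟨hP.map _, hcop.map (mapRingHom (algebraMap (RatFunc F) (v.adicCompletion (RatFunc F)))),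
        ?_⟩, 1, ?_⟩
    · have := Polynomial.map_dvd (algebraMap (RatFunc F) (v.adicCompletion (RatFunc F))) hdvd
      rwa [Polynomial.map_sub, Polynomial.map_mul, Polynomial.map_pow, Polynomial.map_C] at this
    · rw [one_pow, mul_one, descent, natDegree_map, Polynomial.map_mul, Polynomial.map_pow,
        Polynomial.map_C, map_mul, map_pow, map_neg]
      rfl

end Pool.Agent.Results.MP_1bad5e_ag.OddClassNumber
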