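import Pool.Agent.H94.PN.ALLO
import Pool.Agent.H94.PN.GENF

/-!
# MP_1bad5e_ag: the law of the Selmer groups of all `ℓ`-twists `D z ^ ℓ = ∏ (x - A_k)`, `ℓ` odd

`F` is a finite field with `q` elements, `ℓ` an odd prime dividing `q - 1`, `K = F(t)`, `m ≥ 2` prime to `ℓ`,
`A_1, ..., A_m ∈ F[t]` distinct.  For an irreducible polynomial `v` let `L_v` be the Laplace operator
`(L_v x)_k = ∑_i v(A_k - A_i) (x_k - x_i)` on the space `V` of the vectors `x ∈ (ℤ/ℓ)^m` with sum zero, and assume that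
the `L_v` generate the algebra `End V`.  (For example: the pairs `{i, k}` for which some `v` divides `A_i - A_k` with
multiplicity prime to `ℓ` and divides no other difference form a connected graph.)  For `c ∈ F^*` and `D ∈ F[t]` let
`J_D` be the Jacobian of the curve `c D z ^ ℓ = (x - A_1) ... (x - A_m)` over `K`, on which `ζ ∈ μ_ℓ` acts.  The
`(1 - ζ)`-Selmer group of `J_D` is a subgroup of `(K^*/K^{*ℓ})^m`, and contains the image of the group
`J_D(K)[1 - ζ]`, of order `ℓ ^ (m - 1)`.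

Theorem: let `D` run through all monic squarefree polynomials of degree `n`.  Then, for `n → ∞` and every `r ≥ 0`,
the share of the `D` for which the Selmer group has `ℓ ^ (m - 1 + r)` elements tends to
`∏_{i ≥ 1} (1 + ℓ ^ (-i)) ^ (-1) * ∏_{i = 1} ^ r (ℓ ^ i - 1) ^ (-1)`, the law of the corank of large random symmetric
matrices over `ℤ/ℓ`.
-/

namespace Pool.Agent.Results.MP_1bad5e_ag.OddTwists

open Polynomial IsDedekindDomain

/-- `(P, Q)` represents, over the field `M`, an effective divisor on `D z ^ ℓ = ∏ (x - A_k)`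
which is disjoint from the points `(A_k, 0)`: the points with `P(x) = 0` and `z = Q(x)`. -/
def IsMumford {M : Type} [Field M] {m : ℕ} (ℓ : ℕ) (D : M) (A : Fin m → M) (P Q : M[X]) : Prop :=
  P.Monic ∧ (∀ k, P.eval (A k) ≠ 0) ∧ P ∣ C D * Q ^ ℓ - ∏ k, (X - C (A k))

/-- The component `k` of the descent map on this divisor: the product of the values of
`(-D) ^ α (A_k - x)` over its points. Here `ℓ ∣ α m + 1`, so that this function is an `ℓ`-th power
near the point at infinity. -/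
noncomputable def descent {M : Type} [Field M] (α : ℕ) (D : M) (P : M[X]) (a : M) : M :=
  ((-D) ^ α) ^ P.natDegree * P.eval a

/-- `δ ∈ (M^*)^m` is in the image of the descent map over `M`, up to `ℓ`-th powers: the product of
the values on finitely many of the divisors above. -/
def IsValue {M : Type} [Field M] {m : ℕ} (ℓ α : ℕ) (D : M) (A δ : Fin m → M) : Prop :=
  ∃ (r : ℕ) (P Q : Fin r → M[X]) (γ : Fin m → M),
    (∀ i, IsMumford ℓ D A (P i) (Q i)) ∧ (∀ k, γ k ≠ 0) ∧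
      ∀ k, δ k * γ k ^ ℓ = ∏ i, descent α D (P i) (A k)

/-- `δ ∈ (K^*)^m` has product an `ℓ`-th power and is in the image of the descent map over all
completions of `K = F(t)`: those at the primes of `F[t]` and the one at infinity. -/
structure IsSelmer {F : Type} [Field F] [DecidableEq (RatFunc F)] {m : ℕ} (ℓ α : ℕ)
    (D : RatFunc F) (A δ : Fin m → RatFunc F) : Prop where
  ne_zero : ∀ k, δ k ≠ 0
  product : ∃ y : RatFunc F, ∏ k, δ k = y ^ ℓ
  finite : ∀ v : HeightOneSpectrum F[X],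
    IsValue ℓ α (algebraMap (RatFunc F) (v.adicCompletion (RatFunc F)) D)
      (fun k => algebraMap (RatFunc F) (v.adicCompletion (RatFunc F)) (A k))
      (fun k => algebraMap (RatFunc F) (v.adicCompletion (RatFunc F)) (δ k))
  infinity : IsValue ℓ α (algebraMap (RatFunc F) (RatFunc.CompletionAtInfty F) D)
      (fun k => algebraMap (RatFunc F) (RatFunc.CompletionAtInfty F) (A k))
      (fun k => algebraMap (RatFunc F) (RatFunc.CompletionAtInfty F) (δ k))

/-- The Selmer group: the classes of these `δ` in `(K^*/K^{*ℓ})^m`. -/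
def Selmer {F : Type} [Field F] [DecidableEq (RatFunc F)] {m : ℕ} (ℓ α : ℕ)
    (D : RatFunc F) (A : Fin m → RatFunc F) :
    Set (Fin m → (RatFunc F)ˣ ⧸ (powMonoidHom ℓ : (RatFunc F)ˣ →* (RatFunc F)ˣ).range) :=
  {x | ∃ δ : Fin m → (RatFunc F)ˣ, (∀ k, x k = QuotientGroup.mk (δ k)) ∧
    IsSelmer ℓ α D A fun k => (δ k : RatFunc F)}

/-- The Laplace operator of `v` on `(ℤ/ℓ)^m`: `x ↦ (∑_i v(A_k - A_i) (x_k - x_i))_k`. -/
noncomputable def laplace (ℓ : ℕ) {m : ℕ} {F : Type} [Field F] (A : Fin m → F[X]) (v : F[X]) :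
    Module.End (ZMod ℓ) (Fin m → ZMod ℓ) where
  toFun x k := ∑ i, ((multiplicity v (A k - A i) : ℕ) : ZMod ℓ) * (x k - x i)
  map_add' x y := by
    funext k
    simp only [Pi.add_apply, ← Finset.sum_add_distrib]
    exact Finset.sum_congr rfl fun i _ => by ring
  map_smul' r x := by
    funext k
    simp only [Pi.smul_apply, smul_eq_mul, RingHom.id_apply, Finset.mul_sum]
    exact Finset.sum_congr rfl fun i _ => by ring

/-- Every endomorphism which preserves the space of the vectors with sum zero coincides there with an element of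
the algebra generated by the Laplace operators of the irreducible polynomials. -/
def Generating (ℓ : ℕ) {m : ℕ} {F : Type} [Field F] (A : Fin m → F[X]) : Prop :=
  ∀ f : Module.End (ZMod ℓ) (Fin m → ZMod ℓ),
    (∀ x : Fin m → ZMod ℓ, ∑ k, x k = 0 → ∑ k, f x k = 0) →
    ∃ g ∈ Algebra.adjoin (ZMod ℓ) {L | ∃ v : F[X], Irreducible v ∧ L = laplace ℓ A v},
      ∀ x : Fin m → ZMod ℓ, ∑ k, x k = 0 → g x = f x

/-- The twisting polynomials of degree `n`: monic and squarefree. -/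
def Twist {F : Type} [Field F] (n : ℕ) (D : F[X]) : Prop :=
  D.Monic ∧ D.natDegree = n ∧ Squarefree D

/-- The twisting polynomials of degree `n` whose Selmer group has `N` elements. -/
def TwistSelmer {F : Type} [Field F] [DecidableEq (RatFunc F)] {m : ℕ} (ℓ α : ℕ) (c : F)
    (A : Fin m → F[X]) (N n : ℕ) (D : F[X]) : Prop :=
  Twist n D ∧ Nat.card (Selmer ℓ α (algebraMap F[X] (RatFunc F) (C c * D))
    (fun k => algebraMap F[X] (RatFunc F) (A k))) = N

theorem selmer_iff {F : Type} [Field F] [DecidableEq (RatFunc F)] {m ℓ α : ℕ} (c : F)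
    (A : Fin m → F[X]) (D : F[X]) (δ : Fin m → RatFunc F) :
    IsSelmer ℓ α (algebraMap F[X] (RatFunc F) (C c * D))
      (fun k => algebraMap F[X] (RatFunc F) (A k)) δ ↔ H94.PM.IsSln ℓ α c A D δ :=
  ⟨fun h => ⟨h.1, h.2, h.3, h.4⟩, fun h => ⟨h.1, h.2, h.3, h.4⟩⟩

theorem selmer_eq {F : Type} [Field F] [DecidableEq (RatFunc F)] {m ℓ α : ℕ} (c : F)
    (A : Fin m → F[X]) (D : F[X]) :
    Selmer ℓ α (algebraMap F[X] (RatFunc F) (C c * D))
      (fun k => algebraMap F[X] (RatFunc F) (A k)) = H94.PN.SelC ℓ α c A D := by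
  ext x
  constructor
  · rintro ⟨δ, h1, h2⟩
    exact ⟨δ, h1, (selmer_iff c A D _).1 h2⟩
  · rintro ⟨δ, h1, h2⟩
    exact ⟨δ, h1, (selmer_iff c A D _).2 h2⟩

theorem card_twist {F : Type} [Field F] [Finite F] (n : ℕ) :
    Nat.card {D : F[X] // Twist n D} = (H94.PC.Sq F n).card := by
  have h : (H94.PC.Sq F n : Set F[X]) = {D : F[X] | Twist n D} := by
    ext D
    rw [Finset.mem_coe, H94.PC.mem_Sq]
    rfl
  rw [← Set.ncard_coe_finset, h]
  rfl

open Classical in
theorem card_twistSelmer {F : Type} [Field F] [Finite F] [DecidableEq (RatFunc F)] {m : ℕ}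
    (ℓ α : ℕ) (c : F) (A : Fin m → F[X]) (N n : ℕ) :
    Nat.card {D : F[X] // TwistSelmer ℓ α c A N n D} =
      ((H94.PC.Sq F n).filter fun D => Nat.card (H94.PN.SelC ℓ α c A D) = N).card := by
  have h : (((H94.PC.Sq F n).filter fun D => Nat.card (H94.PN.SelC ℓ α c A D) = N : Finset F[X]) :
      Set F[X]) = {D : F[X] | TwistSelmer ℓ α c A N n D} := by
    ext D
    rw [Finset.mem_coe, Finset.mem_filter, H94.PC.mem_Sq]
    change _ ↔ (_ ∧ _)
    rw [selmer_eq]
    rfl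
  rw [← Set.ncard_coe_finset, h]
  rfl

/-- **Theorem.** -/
theorem result (F : Type) [Field F] [Finite F] [DecidableEq (RatFunc F)] (ℓ : ℕ) (hℓ : ℓ.Prime)
    (h2 : ℓ ≠ 2) (hq : ℓ ∣ Nat.card F - 1) (m α : ℕ) (hm2 : 2 ≤ m) (hm : Nat.Coprime m ℓ)
    (hα : ℓ ∣ α * m + 1) (A : Fin m → F[X]) (hA : ∀ i k, i ≠ k → A i ≠ A k)
    (hG : Generating ℓ A) (c : F) (hc : c ≠ 0) (r : ℕ) :
    Filter.Tendsto (fun n : ℕ =>
      (Nat.card {D : F[X] // TwistSelmer ℓ α c A (ℓ ^ (m - 1 + r)) n D} : ℝ) /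
        (Nat.card {D : F[X] // Twist n D} : ℝ)) Filter.atTop
      (nhds ((∏' i : ℕ, (1 + 1 / (ℓ : ℝ) ^ (i + 1)))⁻¹ *
        ∏ i ∈ Finset.range r, ((ℓ : ℝ) ^ (i + 1) - 1)⁻¹)) := by
  classical
  have : Fact ℓ.Prime := ⟨hℓ⟩
  have hG' : H94.PN.GenA ℓ A := H94.PN.genF_A hm hG
  rw [Metric.tendsto_atTop]
  intro ε hε
  obtain ⟨N, hN⟩ := H94.PN.allO h2 hq hm hm2 hα hc hA hG' r (ε / 2) (by positivity)
  have hq4 : 4 ≤ Nat.card F := by
    have h1 := hℓ.two_le
    have h3 : 3 ≤ ℓ := by omega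
    have h4 : 2 ≤ Nat.card F := Finite.one_lt_card
    have h5 := Nat.le_of_dvd (by omega) hq
    omega
  obtain ⟨κ, hκ, N', hN'⟩ := H94.PL.card_Cls_ge (F := F) hq4 1 one_ne_zero
  refine ⟨max N N', fun n hn => ?_⟩
  have h1 := hN n ((le_max_left _ _).trans hn)
  have h3 := hN' n ((le_max_right _ _).trans hn)
  have h4 : ((H94.PL.Cls (1 : F[X]) n).card : ℝ) ≤ ((H94.PC.Sq F n).card : ℝ) := by
    refine Nat.cast_le.2 (Finset.card_le_card fun D hD => ?_)
    rw [H94.PL.mem_Cls] at hD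
    rw [H94.PC.mem_Sq]
    exact ⟨hD.1, hD.2.1, hD.2.2.1⟩
  have hT : (0 : ℝ) < ((H94.PC.Sq F n).card : ℝ) := by
    have h5 : (0 : ℝ) < Nat.card F := by
      have : 0 < Nat.card F := by omega
      exact_mod_cast this
    have h6 : 0 < κ * (Nat.card F : ℝ) ^ n := by positivity
    linarith
  rw [card_twist, card_twistSelmer, Real.dist_eq]
  have h7 : |(((H94.PC.Sq F n).filter fun D =>
      Nat.card (H94.PN.SelC ℓ α c A D) = ℓ ^ (m - 1 + r)).card : ℝ) / ((H94.PC.Sq F n).card : ℝ) -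
      (∏' i : ℕ, (1 + 1 / (ℓ : ℝ) ^ (i + 1)))⁻¹ *
        ∏ i ∈ Finset.range r, ((ℓ : ℝ) ^ (i + 1) - 1)⁻¹| * ((H94.PC.Sq F n).card : ℝ) ≤
      ε / 2 * ((H94.PC.Sq F n).card : ℝ) := by
    rw [← abs_of_pos hT, ← abs_mul, abs_of_pos hT, sub_mul, div_mul_cancel₀ _ hT.ne']
    exact h1
  have h8 := le_of_mul_le_mul_right h7 hT
  linarith

end Pool.Agent.Results.MP_1bad5e_ag.OddTwists
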