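import Pool.Agent.H94.PC.Final

/-!
# MP_1bad5e_ag: a positive proportion of all quadratic twists of the Legendre elliptic surface

`F` is a finite field of odd characteristic with `q` elements, `K = F(t)`, `l ∈ F^*`, `D ∈ F[t]`
monic, and `E_{lD} : y² = x (x - l D) (x - t l D)`, that is `l D y² = x (x - 1) (x - t)`.

`Admissible l n D`: `D` is monic and squarefree of degree `n`, `D(0), D(1) ≠ 0`, and
* `n` is odd and `-l D(0) D(1)` is not a square, or
* `n` is even and neither `D(0)` nor `D(1)` is a square.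
(For `n` odd these are the `D`, prime to `t (t - 1)`, for which `E_{lD}` has root number `1`.)

Theorem: at least `q ^ n / (4 q ^ 2)` polynomials of degree `n` are admissible, and for at least
`1/3 - ε` of them the `2`-Selmer group of `E_{lD}` is the image of the `2`-torsion.

Proof: for an admissible `D` the Selmer group is contained in the kernel of an explicit alternating
form over `F_2`, whose order is a power of `4`; the average of the order over the admissible `D` of
degree `n` is at most `12 + o(1)`.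
-/

namespace Pool.Agent.Results.MP_1bad5e_ag.PositiveProportion

open Polynomial IsDedekindDomain

/-- The `2`-covering `C_{a,b} : a u² - b r² = D w²,  a u² - a b z² = t D w²` of
`E_D : y² = x (x - D) (x - t D)` (a curve in projective space) has a point over the field `M`
containing `K = F(t)`. -/
def CoveringHasPoint {F : Type} [Field F] (M : Type) [Field M] [Algebra (RatFunc F) M]
    (D a b : RatFunc F) : Prop :=
  ∃ u r z w : M, ¬ (u = 0 ∧ r = 0 ∧ z = 0 ∧ w = 0) ∧
    algebraMap (RatFunc F) M a * u ^ 2 - algebraMap (RatFunc F) M b * r ^ 2 =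
      algebraMap (RatFunc F) M D * w ^ 2 ∧
    algebraMap (RatFunc F) M a * u ^ 2 - algebraMap (RatFunc F) M (a * b) * z ^ 2 =
      algebraMap (RatFunc F) M (RatFunc.X * D) * w ^ 2

/-- `C_{a,b}` has points over all completions of `K = F(t)`: those at the primes of `F[t]` and
the one at infinity. -/
def EverywhereSoluble {F : Type} [Field F] [DecidableEq (RatFunc F)] (D a b : RatFunc F) : Prop :=
  (∀ v : HeightOneSpectrum F[X], CoveringHasPoint (v.adicCompletion (RatFunc F)) D a b) ∧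
    CoveringHasPoint (RatFunc.CompletionAtInfty F) D a b

/-- `(a, b)` and `(a', b')` have the same class in `(K^*/K^{*2})²`. -/
def SameClass {F : Type} [Field F] (a b a' b' : RatFunc F) : Prop :=
  ∃ s r : RatFunc F, s ≠ 0 ∧ r ≠ 0 ∧ a = a' * s ^ 2 ∧ b = b' * r ^ 2

/-- `(a, b)` is in the image of the four points `O, (0, 0), (D, 0), (t D, 0)` of `E_D[2]` under
the descent map `(x, y) ↦ (x, x - D)`. -/
def IsTorsionClass {F : Type} [Field F] (D a b : RatFunc F) : Prop :=
  SameClass a b 1 1 ∨ SameClass a b RatFunc.X (-D) ∨ SameClass a b D (1 - RatFunc.X) ∨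
    SameClass a b (RatFunc.X * D) ((RatFunc.X - 1) * D)

/-- The `2`-Selmer group of `E_D` is the image of `E_D[2]`. -/
def SelmerIsTorsion {F : Type} [Field F] [DecidableEq (RatFunc F)] (D : RatFunc F) : Prop :=
  ∀ a b : RatFunc F, a ≠ 0 → b ≠ 0 → (EverywhereSoluble D a b ↔ IsTorsionClass D a b)

/-- The admissible polynomials `D` of degree `n` (for twists by `l D`). -/
def Admissible {F : Type} [Field F] (l : F) (n : ℕ) (D : F[X]) : Prop :=
  D.Monic ∧ D.natDegree = n ∧ Squarefree D ∧ D.eval 0 ≠ 0 ∧ D.eval 1 ≠ 0 ∧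
    ((Odd n ∧ ¬ IsSquare (-(l * D.eval 0 * D.eval 1))) ∨
      (Even n ∧ ¬ IsSquare (D.eval 0) ∧ ¬ IsSquare (D.eval 1)))

theorem hasPt_of {F : Type} [Field F] {M : Type} [Field M] [Algebra (RatFunc F) M]
    {D a b : RatFunc F} (h : CoveringHasPoint M D a b) : H94.LT.HasPt M D a b := by
  obtain ⟨u, r, z, w, h0, h1, h2⟩ := h
  refine ⟨u, r, z, w, h0, h1, ?_⟩
  rw [map_mul, map_mul] at h2
  exact h2

theorem of_sameClass {F : Type} [Field F] (M : Type) [Field M] [Algebra (RatFunc F) M]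
    {D a b a' b' : RatFunc F} (h : SameClass a b a' b') (u r z w : RatFunc F)
    (h0 : w ≠ 0 ∨ u ≠ 0) (h1 : a' * u ^ 2 - b' * r ^ 2 = D * w ^ 2)
    (h2 : a' * u ^ 2 - a' * b' * z ^ 2 = RatFunc.X * D * w ^ 2) : CoveringHasPoint M D a b := by
  obtain ⟨s, c, hs, hc, rfl, rfl⟩ := h
  refine ⟨algebraMap (RatFunc F) M (u / s), algebraMap (RatFunc F) M (r / c),
    algebraMap (RatFunc F) M (z / (s * c)), algebraMap (RatFunc F) M w, ?_, ?_, ?_⟩
  · rintro ⟨hu, _, _, hw⟩
    rw [map_eq_zero] at hu hw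
    rcases h0 with h0 | h0
    · exact h0 hw
    · rw [div_eq_zero_iff] at hu
      tauto
  · rw [← map_pow, ← map_pow, ← map_pow, ← map_mul, ← map_mul, ← map_mul, ← map_sub, ← h1]
    congr 1
    field_simp
  · rw [← map_pow, ← map_pow, ← map_pow, ← map_mul, ← map_mul, ← map_mul, ← map_sub, ← h2]
    congr 1
    field_simp

theorem of_torsion {F : Type} [Field F] (M : Type) [Field M] [Algebra (RatFunc F) M]
    {D a b : RatFunc F} (h : IsTorsionClass D a b) : CoveringHasPoint M D a b := by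
  rcases h with h | h | h | h
  · exact of_sameClass M h 1 1 1 0 (Or.inr one_ne_zero) (by ring) (by ring)
  · exact of_sameClass M h 0 1 1 1 (Or.inl one_ne_zero) (by ring) (by ring)
  · exact of_sameClass M h 1 0 1 1 (Or.inl one_ne_zero) (by ring) (by ring)
  · exact of_sameClass M h 1 1 0 1 (Or.inl one_ne_zero) (by ring) (by ring)

/-- passing from polynomials to classes -/
theorem of_torsionClass {F : Type} [Field F] {D ga gb : F[X]} {a b s r : RatFunc F}
    (hs : s ≠ 0) (hr : r ≠ 0) (has : a = algebraMap F[X] (RatFunc F) ga * s ^ 2)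
    (hbr : b = algebraMap F[X] (RatFunc F) gb * r ^ 2) (ht : H94.LT.TorsionClass D ga gb) :
    IsTorsionClass (algebraMap F[X] (RatFunc F) D) a b := by
  have hC : ∀ c : F, c ≠ 0 → algebraMap F[X] (RatFunc F) (C c) ≠ 0 := by
    intro c hc
    rw [Ne, FaithfulSMul.algebraMap_eq_zero_iff, C_eq_zero]
    exact hc
  have key : ∀ (g g' : F[X]) (c : F) (x σ : RatFunc F), c ≠ 0 → σ ≠ 0 →
      g * C (c ^ 2) = g' → x = algebraMap F[X] (RatFunc F) g * σ ^ 2 →
      x = algebraMap F[X] (RatFunc F) g' * (σ / algebraMap F[X] (RatFunc F) (C c)) ^ 2 := by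
    intro g g' c x σ hc hσ h1 h2
    rw [← h1, h2, map_mul, C_pow, map_pow, div_pow]
    have := hC c hc
    field_simp
  rcases ht with ⟨c, d, hc, hd', h1, h3⟩ | ⟨c, d, hc, hd', h1, h3⟩ | ⟨c, d, hc, hd', h1, h3⟩ |
    ⟨c, d, hc, hd', h1, h3⟩
  · left
    refine ⟨algebraMap F[X] (RatFunc F) (C c) * s, algebraMap F[X] (RatFunc F) (C d) * r,
      mul_ne_zero (hC c hc) hs, mul_ne_zero (hC d hd') hr, ?_, ?_⟩
    · rw [has, h1, C_pow, map_pow]; ring
    · rw [hbr, h3, C_pow, map_pow]; ring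
  · right; left
    have k1 := key ga X c a s hc hs h1 has
    have k2 := key gb (-D) d b r hd' hr h3 hbr
    rw [RatFunc.algebraMap_X] at k1
    rw [map_neg] at k2
    exact ⟨_, _, div_ne_zero hs (hC c hc), div_ne_zero hr (hC d hd'), k1, k2⟩
  · right; right; left
    have k1 := key ga D c a s hc hs h1 has
    have k2 := key gb (1 - X) d b r hd' hr h3 hbr
    rw [map_sub, map_one, RatFunc.algebraMap_X] at k2
    exact ⟨_, _, div_ne_zero hs (hC c hc), div_ne_zero hr (hC d hd'), k1, k2⟩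
  · right; right; right
    have k1 := key ga (X * D) c a s hc hs h1 has
    have k2 := key gb ((X - 1) * D) d b r hd' hr h3 hbr
    rw [map_mul, RatFunc.algebraMap_X] at k1
    rw [map_mul _ (X - 1), map_sub, map_one, RatFunc.algebraMap_X] at k2
    exact ⟨_, _, div_ne_zero hs (hC c hc), div_ne_zero hr (hC d hd'), k1, k2⟩

open H94.PC in
theorem selmer_of_Gd {F : Type} [Field F] [Finite F] [DecidableEq (RatFunc F)] {l : F}
    (hl : l ≠ 0) {n : ℕ} (hn : 1 ≤ n) {D : F[X]} (h : Gd l n D) :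
    SelmerIsTorsion (algebraMap F[X] (RatFunc F) (C l * D)) := by
  obtain ⟨s, hC, hk⟩ := h
  obtain ⟨hm, -, hsq⟩ := mem_Sq.1 hC.1
  have hker : ∀ z ∈ Ker (par l n s) D, (z.1 = 0 ∨ z.1 = 1) ∧ (z.2 = 0 ∨ z.2 = 1) := by
    rcases dich (par l n s) (par_good l n s) rfl hn (mem_Cn.2 hC) with h1 | h1
    · exact h1.2
    · rw [hk] at h1; omega
  intro a b ha hb
  constructor
  swap
  · intro h
    exact ⟨fun v => of_torsion _ h, of_torsion _ h⟩
  rintro ⟨hfin, hinf⟩
  have hlu : IsUnit (C l : F[X]) := isUnit_C.2 (Ne.isUnit hl)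
  obtain ⟨ga, gb, s', r, hs', hr, has, hbr, hd, hloc⟩ := exists_data' (C l * D)
    (hsq.squarefree_of_dvd (hlu.mul_left_dvd.2 dvd_rfl))
    (by rw [eval_mul, eval_C]; exact mul_ne_zero hl hC.2.1.1)
    (by rw [eval_mul, eval_C]; exact mul_ne_zero hl hC.2.1.2) a b ha hb
    (fun v => hasPt_of (hfin v)) (hasPt_of hinf)
  exact of_torsionClass hs' hr has hbr (torsion_of_ker (par l n s) (par_good l n s) rfl hl rfl
    (mem_Cn.2 hC) hker hd hloc)

theorem result (F : Type) [Field F] [Finite F] [DecidableEq (RatFunc F)] (h2 : (2 : F) ≠ 0)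
    (l : F) (hl : l ≠ 0) (ε : ℝ) (hε : 0 < ε) :
    ∃ N : ℕ, ∀ n ≥ N,
      (Nat.card F : ℝ) ^ n / (4 * (Nat.card F : ℝ) ^ 2) ≤
        (Nat.card {D : F[X] // Admissible l n D} : ℝ) ∧
      (1 / 3 - ε) * (Nat.card {D : F[X] // Admissible l n D} : ℝ) ≤
        (Nat.card {D : F[X] // Admissible l n D ∧
          SelmerIsTorsion (algebraMap F[X] (RatFunc F) (C l * D))} : ℝ) := by
  classical
  obtain ⟨N, hN⟩ := H94.PC.main_count h2 hl ε hε
  refine ⟨max N 1, fun n hn => ?_⟩
  obtain ⟨h1, h3⟩ := hN n (le_trans (le_max_left _ _) hn)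
  have hn1 : 1 ≤ n := le_trans (le_max_right _ _) hn
  have hfin : {D : F[X] | Admissible l n D}.Finite := H94.PC.finite_Adm l n
  have e1 : Nat.card {D : F[X] // Admissible l n D} = (H94.PC.AdmF l n).card := by
    have : (H94.PC.AdmF l n : Set F[X]) = {D : F[X] | Admissible l n D} := by
      ext D; rw [Finset.mem_coe, H94.PC.mem_AdmF]; rfl
    rw [← Set.ncard_coe_finset, this]
    rfl
  rw [e1]
  refine ⟨h1, h3.trans ?_⟩
  have e2 : ((H94.PC.AdmF l n).filter (H94.PC.Gd l n)).card ≤
      Nat.card {D : F[X] // Admissible l n D ∧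
          SelmerIsTorsion (algebraMap F[X] (RatFunc F) (C l * D))} := by
    rw [← Set.ncard_coe_finset]
    refine Set.ncard_le_ncard (t := {D : F[X] | Admissible l n D ∧
      SelmerIsTorsion (algebraMap F[X] (RatFunc F) (C l * D))}) ?_ ?_
    · intro D hD
      rw [Finset.mem_coe, Finset.mem_filter, H94.PC.mem_AdmF] at hD
      exact ⟨hD.1, selmer_of_Gd hl hn1 hD.2⟩
    · exact hfin.subset fun D hD => hD.1
  exact_mod_cast e2

end Pool.Agent.Results.MP_1bad5e_ag.PositiveProportion
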