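import Pool.Agent.H94.PS.Fin
import Pool.Agent.H3.SC.MZ
import Pool.Agent.H3.SD.FIN
import Pool.Agent.H3.SE.BBD
import Pool.Agent.H68.PG.GEO
import Pool.Agent.H74.ST.Typ
import Pool.Agent.H94.MW.Mw
import Pool.Agent.H94.MW.Odt
import Pool.Agent.H94.MW.Str

/-!
# MP_1bad5e_ag: the law of the 2-Selmer groups for a positive share of all curves with full 2-torsion

`F` is a finite field with `q` elements, `q` odd, `K = F(t)`.  For `A, B ∈ F[t]` let `E_{A,B}` be the elliptic curve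
`y ^ 2 = x (x - A) (x - B)` over `K`.  Its 2-Selmer group is a subgroup of `(K^*/K^{*2})^3` and contains the image of
`E_{A,B}(K)[2]`, of order 4.

Let `0 < ε ≤ 1/10` and, for odd `d`, let `P(d)` be the set of all pairs `(A, B)` such that `A`, `B`, `A - B` have degree
`d`, the product `A B (A - B)` is squarefree, and each of `A`, `B`, `A - B` has an irreducible factor of degree at least
`(1 - ε) d`.

Theorem: there is `c > 0` such that `P(d)` has at least `c q ^ (2 d)` elements for all large odd `d` (there are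
`q ^ (2 d + 2)` pairs of polynomials of degree at most `d`), and for every `r ≥ 0` the share of the pairs in `P(d)` for
which the 2-Selmer group of `E_{A,B}` has `2 ^ (2 + r)` elements tends, for `d → ∞`, to
`∏_{i ≥ 0} (1 + 2 ^ (-i)) ^ (-1) * ∏_{i = 1} ^ r 2 / (2 ^ i - 1)`, the law conjectured by Poonen and Rains.
For all these pairs the group `E_{A,B}(K)` is isomorphic to `(ℤ/2)^2 × ℤ^ρ` with `ρ ≤ r`.
-/

set_option autoImplicit false

namespace Pool.Agent.Results.MP_1bad5e_ag.PositiveShare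

open Polynomial IsDedekindDomain

/-- `(P, Q)` represents, over the field `M`, an effective divisor on `D y ^ 2 = ∏ (x - A_k)`
which is disjoint from the points `(A_k, 0)`: the points with `P(x) = 0` and `y = Q(x)`. -/
def IsMumford {M : Type} [Field M] {m : ℕ} (D : M) (A : Fin m → M) (P Q : M[X]) : Prop :=
  P.Monic ∧ (∀ k, P.eval (A k) ≠ 0) ∧ P ∣ C D * Q ^ 2 - ∏ k, (X - C (A k))

/-- The component `k` of the descent map on this divisor: the product of the values of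
`D (x - A_k)` over its points. -/
noncomputable def descent {M : Type} [Field M] (D : M) (P : M[X]) (a : M) : M :=
  (-D) ^ P.natDegree * P.eval a

/-- `δ ∈ (M^*)^m` is in the image of the descent map over `M`, up to squares: the product of
the values on finitely many of the divisors above. -/
def IsValue {M : Type} [Field M] {m : ℕ} (D : M) (A δ : Fin m → M) : Prop :=
  ∃ (r : ℕ) (P Q : Fin r → M[X]) (γ : Fin m → M),
    (∀ i, IsMumford D A (P i) (Q i)) ∧ (∀ k, γ k ≠ 0) ∧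
      ∀ k, δ k * γ k ^ 2 = ∏ i, descent D (P i) (A k)

/-- `δ ∈ (K^*)^m` has product a square and is in the image of the descent map over all
completions of `K = F(t)`: those at the primes of `F[t]` and the one at infinity. -/
structure IsSelmer {F : Type} [Field F] [DecidableEq (RatFunc F)] {m : ℕ}
    (D : RatFunc F) (A δ : Fin m → RatFunc F) : Prop where
  ne_zero : ∀ k, δ k ≠ 0
  product : ∃ y : RatFunc F, ∏ k, δ k = y ^ 2
  finite : ∀ v : HeightOneSpectrum F[X],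
    IsValue (algebraMap (RatFunc F) (v.adicCompletion (RatFunc F)) D)
      (fun k => algebraMap (RatFunc F) (v.adicCompletion (RatFunc F)) (A k))
      (fun k => algebraMap (RatFunc F) (v.adicCompletion (RatFunc F)) (δ k))
  infinity : IsValue (algebraMap (RatFunc F) (RatFunc.CompletionAtInfty F) D)
      (fun k => algebraMap (RatFunc F) (RatFunc.CompletionAtInfty F) (A k))
      (fun k => algebraMap (RatFunc F) (RatFunc.CompletionAtInfty F) (δ k))

/-- The 2-Selmer group: the classes of these `δ` in `(K^*/K^{*2})^m`. -/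
def Selmer {F : Type} [Field F] [DecidableEq (RatFunc F)] {m : ℕ}
    (D : RatFunc F) (A : Fin m → RatFunc F) :
    Set (Fin m → (RatFunc F)ˣ ⧸ (powMonoidHom 2 : (RatFunc F)ˣ →* (RatFunc F)ˣ).range) :=
  {x | ∃ δ : Fin m → (RatFunc F)ˣ, (∀ k, x k = QuotientGroup.mk (δ k)) ∧
    IsSelmer D A fun k => (δ k : RatFunc F)}

/-- The set `P(d)` of the pairs `A, B`. -/
structure Admissible {F : Type} [Field F] (ε : ℝ) (d : ℕ) (A B : F[X]) : Prop where
  degree_A : A.natDegree = d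
  degree_B : B.natDegree = d
  degree_sub : (A - B).natDegree = d
  squarefree : Squarefree (A * B * (A - B))
  factor_A : ∃ P, Irreducible P ∧ P ∣ A ∧ (1 - ε) * d ≤ P.natDegree
  factor_B : ∃ P, Irreducible P ∧ P ∣ B ∧ (1 - ε) * d ≤ P.natDegree
  factor_sub : ∃ P, Irreducible P ∧ P ∣ A - B ∧ (1 - ε) * d ≤ P.natDegree

/-- The pairs in `P(d)` such that the 2-Selmer group of `y ^ 2 = x (x - A) (x - B)` has `N` elements. -/
def AdmissibleSelmer {F : Type} [Field F] [DecidableEq (RatFunc F)] (ε : ℝ) (d N : ℕ)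
    (A B : F[X]) : Prop :=
  Admissible ε d A B ∧ Nat.card (Selmer (1 : RatFunc F)
    ![0, algebraMap F[X] (RatFunc F) A, algebraMap F[X] (RatFunc F) B]) = N

/-- The curve `y ^ 2 = x (x - A) (x - B)` over `K`. -/
noncomputable def curve {F : Type} [Field F] (A B : F[X]) : WeierstrassCurve (RatFunc F) where
  a₁ := 0
  a₂ := -algebraMap F[X] (RatFunc F) (A + B)
  a₃ := 0
  a₄ := algebraMap F[X] (RatFunc F) (A * B)
  a₆ := 0

theorem descent_eq {M : Type} [Field M] (D : M) (P : M[X]) (a : M) :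
    descent D P a = H94.PM.dvn 1 D P a := by
  rw [descent, H94.PM.dvn, pow_one]

theorem value_iff {M : Type} [Field M] {m : ℕ} (D : M) (A δ : Fin m → M) :
    IsValue D A δ ↔ H94.PM.IsVln 2 1 D A δ := by
  constructor
  · rintro ⟨r, P, Q, γ, h1, h2, h3⟩
    exact ⟨r, P, Q, γ, h1, h2, fun k => (h3 k).trans
      (Finset.prod_congr rfl fun i _ => descent_eq D (P i) (A k))⟩
  · rintro ⟨r, P, Q, γ, h1, h2, h3⟩
    exact ⟨r, P, Q, γ, h1, h2, fun k => (h3 k).trans
      (Finset.prod_congr rfl fun i _ => (descent_eq D (P i) (A k)).symm)⟩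

theorem selmer_iff {F : Type} [Field F] [DecidableEq (RatFunc F)] {m : ℕ} (c : F)
    (A : Fin m → F[X]) (D : F[X]) (δ : Fin m → RatFunc F) :
    IsSelmer (algebraMap F[X] (RatFunc F) (C c * D))
      (fun k => algebraMap F[X] (RatFunc F) (A k)) δ ↔ H94.PM.IsSln 2 1 c A D δ :=
  ⟨fun h => ⟨h.1, h.2, fun v => (value_iff _ _ _).1 (h.3 v), (value_iff _ _ _).1 h.4⟩,
    fun h => ⟨h.1, h.2, fun v => (value_iff _ _ _).2 (h.3 v), (value_iff _ _ _).2 h.4⟩⟩

theorem selmer_eq {F : Type} [Field F] [DecidableEq (RatFunc F)] {m : ℕ} (c : F)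
    (A : Fin m → F[X]) (D : F[X]) :
    Selmer (algebraMap F[X] (RatFunc F) (C c * D))
      (fun k => algebraMap F[X] (RatFunc F) (A k)) = H94.PN.SelC 2 1 c A D := by
  ext x
  constructor
  · rintro ⟨δ, h1, h2⟩
    exact ⟨δ, h1, (selmer_iff c A D _).1 h2⟩
  · rintro ⟨δ, h1, h2⟩
    exact ⟨δ, h1, (selmer_iff c A D _).2 h2⟩

theorem selmer_pair {F : Type} [Field F] [DecidableEq (RatFunc F)] (A B : F[X]) :
    Selmer (1 : RatFunc F) ![0, algebraMap F[X] (RatFunc F) A, algebraMap F[X] (RatFunc F) B] =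
      H94.PN.SelC 2 1 1 ![0, A, B] (1 : F[X]) := by
  rw [← selmer_eq]
  congr 1
  · rw [C_1, mul_one, map_one]
  · funext k
    fin_cases k
    · exact (map_zero _).symm
    · rfl
    · rfl

theorem adm_eq {F : Type} [Field F] (ε : ℝ) (d : ℕ) (A B : F[X]) :
    Admissible ε d A B ↔ H94.PS.Adm ε d A B :=
  ⟨fun h => ⟨h.1, h.2, h.3, h.4, h.5, h.6, h.7⟩, fun h => ⟨h.1, h.2, h.3, h.4, h.5, h.6, h.7⟩⟩

theorem card_admissible {F : Type} [Field F] [Finite F] {ε : ℝ} (h0 : 0 ≤ ε) (d : ℕ) :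
    Nat.card {p : F[X] × F[X] // Admissible ε d p.1 p.2} =
      (H94.PS.Fam F d ⌊ε * (d : ℝ)⌋₊).card := by
  have h := H94.PS.card_adm (F := F) h0 d fun _ => True
  rw [Finset.filter_true_of_mem fun _ _ => trivial] at h
  rw [← h]
  refine Nat.card_congr (Equiv.subtypeEquivRight fun p => ?_)
  rw [adm_eq]
  exact (and_iff_left trivial).symm

theorem card_admissibleSelmer {F : Type} [Field F] [Finite F] [DecidableEq (RatFunc F)]
    (h2 : (2 : F) ≠ 0) {ε : ℝ} (h0 : 0 ≤ ε) {d : ℕ} (hd : Odd d) (r : ℕ) :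
    Nat.card {p : F[X] × F[X] // AdmissibleSelmer ε d (2 ^ (2 + r)) p.1 p.2} =
      ((H94.PS.Fam F d ⌊ε * (d : ℝ)⌋₊).filter fun Y => H94.PS.rkY Y = r).card := by
  rw [← H94.PS.card_adm (F := F) h0 d fun Y => H94.PS.rkY Y = r]
  refine Nat.card_congr (Equiv.subtypeEquivRight fun p => ?_)
  rw [AdmissibleSelmer, adm_eq]
  refine and_congr_right fun h => ?_
  have hY := (H94.PS.mem_Fam.1 ((H94.PS.adm_iff h0).1 h)).1
  rw [selmer_pair, H68.PG.geo h2 hY hd]
  have h1 : Nat.card (H94.PS.RadX ![p.1, -p.2, p.2 - p.1]) =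
      2 ^ H94.PS.rkY (H94.PS.mkY p.1 p.2) := by
    rw [Module.natCard_eq_pow_finrank (K := ZMod 2), Nat.card_eq_fintype_card, ZMod.card]
    rfl
  rw [h1, show (4 : ℕ) = 2 ^ 2 by norm_num, ← pow_add]
  constructor
  · intro h3
    have := Nat.pow_right_injective le_rfl h3
    omega
  · intro h3
    rw [h3]

theorem curve_eq {F : Type} [Field F] (A B : F[X]) :
    curve A B = H94.MW.crv fun i => algebraMap F[X] (RatFunc F) ((![0, A, B] : Fin 3 → F[X]) i) := by
  unfold curve H94.MW.crv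
  simp only [Matrix.cons_val_zero, Matrix.cons_val_one, Matrix.cons_val, map_zero, map_add,
    map_mul, zero_add, zero_mul, neg_zero]

/-- the group of the points -/
theorem points {F : Type} [Field F] [Finite F] [DecidableEq (RatFunc F)]
    (h2 : (2 : F) ≠ 0) {ε : ℝ} (h0 : 0 ≤ ε) {d : ℕ} (hd : Odd d) {A B : F[X]}
    (h : Admissible ε d A B) :
    ∀ r : ℕ, Nat.card (Selmer (1 : RatFunc F)
      ![0, algebraMap F[X] (RatFunc F) A, algebraMap F[X] (RatFunc F) B]) = 2 ^ (2 + r) →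
        ∃ ρ ≤ r, Nonempty ((curve A B).toAffine.Point ≃+ (ZMod 2 × ZMod 2) × (Fin ρ → ℤ)) := by
  have hY := (H94.PS.mem_Fam.1 ((H94.PS.adm_iff h0).1 ((adm_eq ε d A B).1 h))).1
  have hne : A * B * (A - B) ≠ 0 := h.squarefree.ne_zero
  have hA : A ≠ 0 := fun h1 => hne (by rw [h1, zero_mul, zero_mul])
  have hB : B ≠ 0 := fun h1 => hne (by rw [h1, mul_zero, zero_mul])
  have hAB : A ≠ B := fun h1 => hne (by rw [h1, sub_self, mul_zero])
  have hinj : Function.Injective (![0, A, B] : Fin 3 → F[X]) := by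
    intro i j hij
    fin_cases i <;> fin_cases j
    · rfl
    · exact absurd hij.symm hA
    · exact absurd hij.symm hB
    · exact absurd hij hA
    · rfl
    · exact absurd hij hAB
    · exact absurd hij hB
    · exact absurd hij.symm hAB
    · rfl
  have hg := H68.PG.geo h2 hY hd
  rw [curve_eq, selmer_pair]
  intro r hr
  have h3 : 0 < Nat.card (H94.PS.RadX ![A, -B, B - A]) := Nat.card_pos
  have h4 : Nat.card (H94.PN.SelC 2 1 1 ![0, A, B] (1 : F[X])) ≠ 0 := by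
    rw [hg]
    omega
  have h5 := Nat.finite_of_card_ne_zero h4
  have hfg := H94.MW.mw_fg h2 hinj (Set.toFinite _)
  have hinj' : Function.Injective
      fun i => algebraMap F[X] (RatFunc F) ((![0, A, B] : Fin 3 → F[X]) i) :=
    fun i j hij => hinj (RatFunc.algebraMap_injective F hij)
  have hK2 : (2 : RatFunc F) ≠ 0 := by
    have h6 := (map_ne_zero (algebraMap F (RatFunc F))).2 h2
    rwa [map_ofNat] at h6
  exact ⟨_, H94.MW.mw_rk h2 hinj hr, H94.MW.str hfg
    (fun P hP => H94.MW.odt h2 hd h.degree_A h.degree_B h.degree_sub h.squarefree P hP)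
    (H94.MW.card_two hK2 hinj')⟩

/-- **Theorem.** -/
theorem result (F : Type) [Field F] [Finite F] [DecidableEq (RatFunc F)]
    (h2 : (2 : F) ≠ 0) (ε : ℝ) (h0 : 0 < ε) (h1 : ε ≤ 1 / 10) :
    (∃ c : ℝ, 0 < c ∧ ∀ᶠ n : ℕ in Filter.atTop, c * (Nat.card F : ℝ) ^ (2 * (2 * n + 1)) ≤
      (Nat.card {p : F[X] × F[X] // Admissible ε (2 * n + 1) p.1 p.2} : ℝ)) ∧
    (∀ r : ℕ, Filter.Tendsto (fun n : ℕ =>
      (Nat.card {p : F[X] × F[X] // AdmissibleSelmer ε (2 * n + 1) (2 ^ (2 + r)) p.1 p.2} : ℝ) /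
        (Nat.card {p : F[X] × F[X] // Admissible ε (2 * n + 1) p.1 p.2} : ℝ)) Filter.atTop
      (nhds ((∏' i : ℕ, (1 + 1 / (2 : ℝ) ^ i))⁻¹ *
        ∏ i ∈ Finset.range r, (2 / ((2 : ℝ) ^ (i + 1) - 1))))) ∧
    ∀ (n r : ℕ) (A B : F[X]), AdmissibleSelmer ε (2 * n + 1) (2 ^ (2 + r)) A B →
      ∃ ρ ≤ r, Nonempty ((curve A B).toAffine.Point ≃+ (ZMod 2 × ZMod 2) × (Fin ρ → ℤ)) := by
  classical
  obtain ⟨c₀, hc₀, D₀, hD₀⟩ := H3.SD.st4 h2 h0
  have hq0 : (0 : ℝ) < Nat.card F := by exact_mod_cast (Nat.card_pos : 0 < Nat.card F)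
  have hbig : ∀ n : ℕ, D₀ ≤ n → c₀ * (Nat.card F : ℝ) ^ (2 * (2 * n + 1)) ≤
      (Nat.card {p : F[X] × F[X] // Admissible ε (2 * n + 1) p.1 p.2} : ℝ) := by
    intro n hn
    rw [card_admissible h0.le]
    exact hD₀ (2 * n + 1) (by omega)
  refine ⟨⟨c₀, hc₀, Filter.eventually_atTop.2 ⟨D₀, hbig⟩⟩, fun r => ?_, fun n r A B h => ?_⟩
  swap
  · exact points h2 h0.le ⟨n, rfl⟩ h.1 r h.2
  rw [Metric.tendsto_atTop]
  intro η hη
  obtain ⟨N, hN⟩ := H94.PS.asm (F := F) ε h1
    (fun k δ hδ => H3.SC.mom_zero h2 (H3.SE.bad_bound h2) k hδ)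
    (fun k δ hδ => H3.SC.mom_one h2 k hδ)
    (fun δ hδ => by
      obtain ⟨D, hD⟩ := H74.ST.st1 (F := F) δ hδ
      exact ⟨D, fun d hd e _ => hD d hd e⟩) ⟨c₀, hc₀, D₀, hD₀⟩ r (η / 2) (by positivity)
  refine ⟨max N D₀, fun n hn => ?_⟩
  have h3 := hN n ((le_max_left _ _).trans hn)
  have h4 := hbig n ((le_max_right _ _).trans hn)
  rw [card_admissibleSelmer h2 h0.le ⟨n, rfl⟩ r, card_admissible h0.le, Real.dist_eq]
  rw [card_admissible h0.le] at h4
  have hT : (0 : ℝ) < ((H94.PS.Fam F (2 * n + 1) ⌊ε * ((2 * n + 1 : ℕ) : ℝ)⌋₊).card : ℝ) := by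
    have h9 : 0 < c₀ * (Nat.card F : ℝ) ^ (2 * (2 * n + 1)) := by positivity
    linarith
  have h7 := h3
  rw [← div_le_div_iff_of_pos_right hT, mul_div_assoc, div_self hT.ne', mul_one] at h7
  have h8 : |(((H94.PS.Fam F (2 * n + 1) ⌊ε * ((2 * n + 1 : ℕ) : ℝ)⌋₊).filter
        fun Y => H94.PS.rkY Y = r).card : ℝ) /
        ((H94.PS.Fam F (2 * n + 1) ⌊ε * ((2 * n + 1 : ℕ) : ℝ)⌋₊).card : ℝ) -
      (∏' i : ℕ, (1 + 1 / (2 : ℝ) ^ i))⁻¹ *
        ∏ i ∈ Finset.range r, (2 / ((2 : ℝ) ^ (i + 1) - 1))| ≤ η / 2 := by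
    refine le_trans (le_of_eq ?_) h7
    rw [← abs_of_pos hT, ← abs_div, abs_of_pos hT]
    congr 1
    field_simp
  linarith

end Pool.Agent.Results.MP_1bad5e_ag.PositiveShare
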