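import Pool.Agent.H94.LT.Prime

/-!
# MP_1bad5e_ag: twists of the Legendre elliptic surface by a prime

`F` is a finite field of odd characteristic, `K = F(t)`, `D ∈ F[t]` and
`E_D : y² = x (x - D) (x - t D)`, that is `D y² = x (x - 1) (x - t)`.

For `D = l P` with `P` monic irreducible, `P ≠ t, t - 1`, the `2`-Selmer group of `E_D` is the
image of `E_D[2]` as soon as
* `deg P` is odd and `-l P(0) P(1)` is not a square in `F`, or
* `deg P` is even and neither `P(0)` nor `P(1)` is a square in `F`.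
-/

namespace Pool.Agent.Results.MP_1bad5e_ag.PrimeTwists

open Polynomial IsDedekindDomain

/-- The `2`-covering `C_{a,b} : a u² - b r² = D w²,  a u² - a b z² = t D w²` of
`E_D : y² = x (x - D) (x - t D)` (a curve in projective space) has a point over the field `M`
containing `K = F(t)`. -/
def CoveringHasPoint {F : Type} [Field F] (M : Type) [Field M] [Algebra (RatFunc F) M]
    (D a b : RatFunc F) : Prop :=
  ∃ u r z w : M, ¬ (u = 0 ∧ r = 0 ∧ z = 0 ∧ w = 0) ∧
    algebraMap (RatFunc F) M a * u ^ 2 - algebraMap (RatFunc F) M b * r ^ 2 =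
      algebraMap (RatFunc F) M D * w ^ 2 ∧
    algebraMap (RatFunc F) M a * u ^ 2 - algebraMap (RatFunc F) M (a * b) * z ^ 2 =
      algebraMap (RatFunc F) M (RatFunc.X * D) * w ^ 2

/-- `C_{a,b}` has points over all completions of `K = F(t)`: those at the primes of `F[t]` and
the one at infinity. -/
def EverywhereSoluble {F : Type} [Field F] [DecidableEq (RatFunc F)] (D a b : RatFunc F) : Prop :=
  (∀ v : HeightOneSpectrum F[X], CoveringHasPoint (v.adicCompletion (RatFunc F)) D a b) ∧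
    CoveringHasPoint (RatFunc.CompletionAtInfty F) D a b

/-- `(a, b)` and `(a', b')` have the same class in `(K^*/K^{*2})²`. -/
def SameClass {F : Type} [Field F] (a b a' b' : RatFunc F) : Prop :=
  ∃ s r : RatFunc F, s ≠ 0 ∧ r ≠ 0 ∧ a = a' * s ^ 2 ∧ b = b' * r ^ 2

/-- `(a, b)` is in the image of the four points `O, (0, 0), (D, 0), (t D, 0)` of `E_D[2]` under
the descent map `(x, y) ↦ (x, x - D)`. -/
def IsTorsionClass {F : Type} [Field F] (D a b : RatFunc F) : Prop :=
  SameClass a b 1 1 ∨ SameClass a b RatFunc.X (-D) ∨ SameClass a b D (1 - RatFunc.X) ∨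
    SameClass a b (RatFunc.X * D) ((RatFunc.X - 1) * D)

theorem hasPt_of {F : Type} [Field F] {M : Type} [Field M] [Algebra (RatFunc F) M]
    {D a b : RatFunc F} (h : CoveringHasPoint M D a b) : H94.LT.HasPt M D a b := by
  obtain ⟨u, r, z, w, h0, h1, h2⟩ := h
  refine ⟨u, r, z, w, h0, h1, ?_⟩
  rw [map_mul, map_mul] at h2
  exact h2

theorem of_sameClass {F : Type} [Field F] (M : Type) [Field M] [Algebra (RatFunc F) M]
    {D a b a' b' : RatFunc F} (h : SameClass a b a' b') (u r z w : RatFunc F)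
    (h0 : w ≠ 0 ∨ u ≠ 0) (h1 : a' * u ^ 2 - b' * r ^ 2 = D * w ^ 2)
    (h2 : a' * u ^ 2 - a' * b' * z ^ 2 = RatFunc.X * D * w ^ 2) : CoveringHasPoint M D a b := by
  obtain ⟨s, c, hs, hc, rfl, rfl⟩ := h
  refine ⟨algebraMap (RatFunc F) M (u / s), algebraMap (RatFunc F) M (r / c),
    algebraMap (RatFunc F) M (z / (s * c)), algebraMap (RatFunc F) M w, ?_, ?_, ?_⟩
  · rintro ⟨hu, _, _, hw⟩
    rw [map_eq_zero] at hu hw
    rcases h0 with h0 | h0
    · exact h0 hw
    · rw [div_eq_zero_iff] at hu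
      tauto
  · rw [← map_pow, ← map_pow, ← map_pow, ← map_mul, ← map_mul, ← map_mul, ← map_sub, ← h1]
    congr 1
    field_simp
  · rw [← map_pow, ← map_pow, ← map_pow, ← map_mul, ← map_mul, ← map_mul, ← map_sub, ← h2]
    congr 1
    field_simp

theorem of_torsion {F : Type} [Field F] (M : Type) [Field M] [Algebra (RatFunc F) M]
    {D a b : RatFunc F} (h : IsTorsionClass D a b) : CoveringHasPoint M D a b := by
  rcases h with h | h | h | h
  · exact of_sameClass M h 1 1 1 0 (Or.inr one_ne_zero) (by ring) (by ring)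
  · exact of_sameClass M h 0 1 1 1 (Or.inl one_ne_zero) (by ring) (by ring)
  · exact of_sameClass M h 1 0 1 1 (Or.inl one_ne_zero) (by ring) (by ring)
  · exact of_sameClass M h 1 1 0 1 (Or.inl one_ne_zero) (by ring) (by ring)

theorem result (F : Type) [Field F] [Finite F] [DecidableEq (RatFunc F)] (h2 : (2 : F) ≠ 0)
    (P : F[X]) (hP : Irreducible P) (hm : P.Monic) (hX : P ≠ X) (hX1 : P ≠ X - 1)
    (l : F) (hl : l ≠ 0)
    (hyp : (Odd P.natDegree ∧ ¬ IsSquare (-(l * P.eval 0 * P.eval 1))) ∨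
      (Even P.natDegree ∧ ¬ IsSquare (P.eval 0) ∧ ¬ IsSquare (P.eval 1)))
    (a b : RatFunc F) (ha : a ≠ 0) (hb : b ≠ 0) :
    EverywhereSoluble (algebraMap F[X] (RatFunc F) (C l * P)) a b ↔
      IsTorsionClass (algebraMap F[X] (RatFunc F) (C l * P)) a b := by
  constructor
  swap
  · intro h
    exact ⟨fun v => of_torsion _ h, of_torsion _ h⟩
  rintro ⟨hfin, hinf⟩
  have hX1' : (X : F[X]) - C 1 = X - 1 := by simp
  have hP0 : P.eval 0 ≠ 0 := by
    intro h0
    have h1 : (X : F[X]) ∣ P := by rw [X_dvd_iff, coeff_zero_eq_eval_zero]; exact h0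
    have h3 := (irreducible_X (R := F)).associated_of_dvd hP h1
    exact hX (eq_of_monic_of_associated hm monic_X h3.symm)
  have hP1 : P.eval 1 ≠ 0 := by
    intro h0
    have h1 : (X : F[X]) - C 1 ∣ P := by rw [dvd_iff_isRoot]; exact h0
    have h3 := (irreducible_X_sub_C (1 : F)).associated_of_dvd hP h1
    apply hX1
    rw [← hX1']
    exact eq_of_monic_of_associated hm (monic_X_sub_C 1) h3.symm
  obtain ⟨ga, gb, s, r, hs, hr, has, hbr, hd⟩ := H94.LT.exists_data (C l * P)
    (by rw [eval_mul, eval_C]; exact mul_ne_zero hl hP0)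
    (by rw [eval_mul, eval_C]; exact mul_ne_zero hl hP1) a b ha hb
    (fun v => hasPt_of (hfin v)) (hasPt_of hinf)
  have ht := H94.LT.torsion_of_data h2 P hP hm hX hX1 l hl hyp ga gb hd
  have hC : ∀ c : F, c ≠ 0 → algebraMap F[X] (RatFunc F) (C c) ≠ 0 := by
    intro c hc
    rw [Ne, FaithfulSMul.algebraMap_eq_zero_iff, C_eq_zero]
    exact hc
  -- passing from polynomials to classes
  have key : ∀ (g g' : F[X]) (c : F) (x σ : RatFunc F), c ≠ 0 → σ ≠ 0 →
      g * C (c ^ 2) = g' → x = algebraMap F[X] (RatFunc F) g * σ ^ 2 →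
      x = algebraMap F[X] (RatFunc F) g' * (σ / algebraMap F[X] (RatFunc F) (C c)) ^ 2 := by
    intro g g' c x σ hc hσ h1 h2
    rw [← h1, h2, map_mul, C_pow, map_pow, div_pow]
    have := hC c hc
    field_simp
  rcases ht with ⟨c, d, hc, hd', h1, h3⟩ | ⟨c, d, hc, hd', h1, h3⟩ | ⟨c, d, hc, hd', h1, h3⟩ |
    ⟨c, d, hc, hd', h1, h3⟩
  · left
    refine ⟨algebraMap F[X] (RatFunc F) (C c) * s, algebraMap F[X] (RatFunc F) (C d) * r,
      mul_ne_zero (hC c hc) hs, mul_ne_zero (hC d hd') hr, ?_, ?_⟩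
    · rw [has, h1, C_pow, map_pow]; ring
    · rw [hbr, h3, C_pow, map_pow]; ring
  · right; left
    have k1 := key ga X c a s hc hs h1 has
    have k2 := key gb (-(C l * P)) d b r hd' hr h3 hbr
    rw [RatFunc.algebraMap_X] at k1
    rw [map_neg] at k2
    exact ⟨_, _, div_ne_zero hs (hC c hc), div_ne_zero hr (hC d hd'), k1, k2⟩
  · right; right; left
    have k1 := key ga (C l * P) c a s hc hs h1 has
    have k2 := key gb (1 - X) d b r hd' hr h3 hbr
    rw [map_sub, map_one, RatFunc.algebraMap_X] at k2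
    exact ⟨_, _, div_ne_zero hs (hC c hc), div_ne_zero hr (hC d hd'), k1, k2⟩
  · right; right; right
    have k1 := key ga (X * (C l * P)) c a s hc hs h1 has
    have k2 := key gb ((X - 1) * (C l * P)) d b r hd' hr h3 hbr
    rw [map_mul, RatFunc.algebraMap_X] at k1
    rw [map_mul _ (X - 1), map_sub, map_one, RatFunc.algebraMap_X] at k2
    exact ⟨_, _, div_ne_zero hs (hC c hc), div_ne_zero hr (hC d hd'), k1, k2⟩

end Pool.Agent.Results.MP_1bad5e_ag.PrimeTwists
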