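import Pool.Agent.H94.PN.ALL2
import Pool.Agent.H94.PN.GENF

/-!
# MP_1bad5e_ag: the law of the 2-Selmer groups of quadratic twists of curves with split Weierstrass points

`F` is a finite field with `q` elements, `q` odd, `K = F(t)`, `m ≥ 3` odd, `A_1, ..., A_m ∈ F[t]` distinct.  For an
irreducible polynomial `v` let `L_v` be the Laplace operator `(L_v x)_k = ∑_i v(A_k - A_i) (x_k - x_i)` on the space
`V` of the vectors `x ∈ (ℤ/2)^m` with sum zero, and assume that the `L_v` generate the algebra `End V`.  Call `v`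
detecting if it divides one difference `A_i - A_k` (`i < k`) with odd multiplicity and no other one, and assume that
there is such a `v`.  (For example: the pairs `{i, k}` which belong to the detecting `v` form a connected graph.)  For
`c ∈ F^*` and `D ∈ F[t]` let `J_D` be the Jacobian of the curve `c D y ^ 2 = (x - A_1) ... (x - A_m)` over `K`.  The
2-Selmer group of `J_D` is a subgroup of `(K^*/K^{*2})^m`, and contains the image of `J_D(K)[2]`, of order
`2 ^ (m - 1)`.

Theorem: let `D` run through the monic squarefree polynomials of degree `n` which are not divisible by all detecting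
primes (in particular all those prime to the differences).  Then, for `n → ∞` and every `r ≥ 0`, the share of the
`D` for which the 2-Selmer group has `2 ^ (m - 1 + r)` elements tends to
`∏_{i ≥ 0} (1 + 2 ^ (-i)) ^ (-1) * ∏_{i = 1} ^ r 2 / (2 ^ i - 1)`, the law conjectured by Poonen and Rains.
-/

namespace Pool.Agent.Results.MP_1bad5e_ag.QuadraticTwists

open Polynomial IsDedekindDomain

/-- `(P, Q)` represents, over the field `M`, an effective divisor on `D y ^ 2 = ∏ (x - A_k)`
which is disjoint from the points `(A_k, 0)`: the points with `P(x) = 0` and `y = Q(x)`. -/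
def IsMumford {M : Type} [Field M] {m : ℕ} (D : M) (A : Fin m → M) (P Q : M[X]) : Prop :=
  P.Monic ∧ (∀ k, P.eval (A k) ≠ 0) ∧ P ∣ C D * Q ^ 2 - ∏ k, (X - C (A k))

/-- The component `k` of the descent map on this divisor: the product of the values of
`D (x - A_k)` over its points. -/
noncomputable def descent {M : Type} [Field M] (D : M) (P : M[X]) (a : M) : M :=
  (-D) ^ P.natDegree * P.eval a

/-- `δ ∈ (M^*)^m` is in the image of the descent map over `M`, up to squares: the product of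
the values on finitely many of the divisors above. -/
def IsValue {M : Type} [Field M] {m : ℕ} (D : M) (A δ : Fin m → M) : Prop :=
  ∃ (r : ℕ) (P Q : Fin r → M[X]) (γ : Fin m → M),
    (∀ i, IsMumford D A (P i) (Q i)) ∧ (∀ k, γ k ≠ 0) ∧
      ∀ k, δ k * γ k ^ 2 = ∏ i, descent D (P i) (A k)

/-- `δ ∈ (K^*)^m` has product a square and is in the image of the descent map over all
completions of `K = F(t)`: those at the primes of `F[t]` and the one at infinity. -/
structure IsSelmer {F : Type} [Field F] [DecidableEq (RatFunc F)] {m : ℕ}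
    (D : RatFunc F) (A δ : Fin m → RatFunc F) : Prop where
  ne_zero : ∀ k, δ k ≠ 0
  product : ∃ y : RatFunc F, ∏ k, δ k = y ^ 2
  finite : ∀ v : HeightOneSpectrum F[X],
    IsValue (algebraMap (RatFunc F) (v.adicCompletion (RatFunc F)) D)
      (fun k => algebraMap (RatFunc F) (v.adicCompletion (RatFunc F)) (A k))
      (fun k => algebraMap (RatFunc F) (v.adicCompletion (RatFunc F)) (δ k))
  infinity : IsValue (algebraMap (RatFunc F) (RatFunc.CompletionAtInfty F) D)
      (fun k => algebraMap (RatFunc F) (RatFunc.CompletionAtInfty F) (A k))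
      (fun k => algebraMap (RatFunc F) (RatFunc.CompletionAtInfty F) (δ k))

/-- The 2-Selmer group: the classes of these `δ` in `(K^*/K^{*2})^m`. -/
def Selmer {F : Type} [Field F] [DecidableEq (RatFunc F)] {m : ℕ}
    (D : RatFunc F) (A : Fin m → RatFunc F) :
    Set (Fin m → (RatFunc F)ˣ ⧸ (powMonoidHom 2 : (RatFunc F)ˣ →* (RatFunc F)ˣ).range) :=
  {x | ∃ δ : Fin m → (RatFunc F)ˣ, (∀ k, x k = QuotientGroup.mk (δ k)) ∧
    IsSelmer D A fun k => (δ k : RatFunc F)}

/-- The Laplace operator of `v` on `(ℤ/2)^m`: `x ↦ (∑_i v(A_k - A_i) (x_k - x_i))_k`. -/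
noncomputable def laplace {m : ℕ} {F : Type} [Field F] (A : Fin m → F[X]) (v : F[X]) :
    Module.End (ZMod 2) (Fin m → ZMod 2) where
  toFun x k := ∑ i, ((multiplicity v (A k - A i) : ℕ) : ZMod 2) * (x k - x i)
  map_add' x y := by
    funext k
    simp only [Pi.add_apply, ← Finset.sum_add_distrib]
    exact Finset.sum_congr rfl fun i _ => by ring
  map_smul' r x := by
    funext k
    simp only [Pi.smul_apply, smul_eq_mul, RingHom.id_apply, Finset.mul_sum]
    exact Finset.sum_congr rfl fun i _ => by ring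

/-- Every endomorphism which preserves the space of the vectors with sum zero coincides there with an element of
the algebra generated by the Laplace operators of the irreducible polynomials. -/
def Generating {m : ℕ} {F : Type} [Field F] (A : Fin m → F[X]) : Prop :=
  ∀ f : Module.End (ZMod 2) (Fin m → ZMod 2),
    (∀ x : Fin m → ZMod 2, ∑ k, x k = 0 → ∑ k, f x k = 0) →
    ∃ g ∈ Algebra.adjoin (ZMod 2) {L | ∃ v : F[X], Irreducible v ∧ L = laplace A v},
      ∀ x : Fin m → ZMod 2, ∑ k, x k = 0 → g x = f x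

/-- `v` is irreducible and divides one difference with odd multiplicity and no other difference. -/
def Detecting {F : Type} [Field F] {m : ℕ} (A : Fin m → F[X]) (v : F[X]) : Prop :=
  Irreducible v ∧ ∃ i k : Fin m, i ≠ k ∧ ¬ 2 ∣ multiplicity v (A i - A k) ∧
    ∀ a b, a ≠ b → ¬ (a = i ∧ b = k) → ¬ (a = k ∧ b = i) → ¬ v ∣ A a - A b

/-- The twisting polynomials of degree `n`: monic, squarefree and not divisible by all detecting `v`. -/
def Twist {F : Type} [Field F] {m : ℕ} (A : Fin m → F[X]) (n : ℕ) (D : F[X]) : Prop :=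
  (D.Monic ∧ D.natDegree = n ∧ Squarefree D) ∧ ∃ v, Detecting A v ∧ ¬ v ∣ D

/-- The twisting polynomials of degree `n` whose Selmer group has `N` elements. -/
def TwistSelmer {F : Type} [Field F] [DecidableEq (RatFunc F)] {m : ℕ} (c : F)
    (A : Fin m → F[X]) (N n : ℕ) (D : F[X]) : Prop :=
  Twist A n D ∧ Nat.card (Selmer (algebraMap F[X] (RatFunc F) (C c * D))
    (fun k => algebraMap F[X] (RatFunc F) (A k))) = N

theorem descent_eq {M : Type} [Field M] (D : M) (P : M[X]) (a : M) :
    descent D P a = H94.PM.dvn 1 D P a := by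
  rw [descent, H94.PM.dvn, pow_one]

theorem value_iff {M : Type} [Field M] {m : ℕ} (D : M) (A δ : Fin m → M) :
    IsValue D A δ ↔ H94.PM.IsVln 2 1 D A δ := by
  constructor
  · rintro ⟨r, P, Q, γ, h1, h2, h3⟩
    exact ⟨r, P, Q, γ, h1, h2, fun k => (h3 k).trans
      (Finset.prod_congr rfl fun i _ => descent_eq D (P i) (A k))⟩
  · rintro ⟨r, P, Q, γ, h1, h2, h3⟩
    exact ⟨r, P, Q, γ, h1, h2, fun k => (h3 k).trans
      (Finset.prod_congr rfl fun i _ => (descent_eq D (P i) (A k)).symm)⟩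

theorem selmer_iff {F : Type} [Field F] [DecidableEq (RatFunc F)] {m : ℕ} (c : F)
    (A : Fin m → F[X]) (D : F[X]) (δ : Fin m → RatFunc F) :
    IsSelmer (algebraMap F[X] (RatFunc F) (C c * D))
      (fun k => algebraMap F[X] (RatFunc F) (A k)) δ ↔ H94.PM.IsSln 2 1 c A D δ :=
  ⟨fun h => ⟨h.1, h.2, fun v => (value_iff _ _ _).1 (h.3 v), (value_iff _ _ _).1 h.4⟩,
    fun h => ⟨h.1, h.2, fun v => (value_iff _ _ _).2 (h.3 v), (value_iff _ _ _).2 h.4⟩⟩

theorem selmer_eq {F : Type} [Field F] [DecidableEq (RatFunc F)] {m : ℕ} (c : F)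
    (A : Fin m → F[X]) (D : F[X]) :
    Selmer (algebraMap F[X] (RatFunc F) (C c * D))
      (fun k => algebraMap F[X] (RatFunc F) (A k)) = H94.PN.SelC 2 1 c A D := by
  ext x
  constructor
  · rintro ⟨δ, h1, h2⟩
    exact ⟨δ, h1, (selmer_iff c A D _).1 h2⟩
  · rintro ⟨δ, h1, h2⟩
    exact ⟨δ, h1, (selmer_iff c A D _).2 h2⟩

open Classical in
theorem card_twist {F : Type} [Field F] [Finite F] {m : ℕ} (A : Fin m → F[X]) (n : ℕ) :
    Nat.card {D : F[X] // Twist A n D} =
      ((H94.PC.Sq F n).filter fun D => H94.PN.SomeDtv A D).card := by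
  have h : (((H94.PC.Sq F n).filter fun D => H94.PN.SomeDtv A D : Finset F[X]) : Set F[X]) =
      {D : F[X] | Twist A n D} := by
    ext D
    rw [Finset.mem_coe, Finset.mem_filter, H94.PC.mem_Sq]
    rfl
  rw [← Set.ncard_coe_finset, h]
  rfl

open Classical in
theorem card_twistSelmer {F : Type} [Field F] [Finite F] [DecidableEq (RatFunc F)] {m : ℕ}
    (c : F) (A : Fin m → F[X]) (N n : ℕ) :
    Nat.card {D : F[X] // TwistSelmer c A N n D} =
      ((H94.PC.Sq F n).filter fun D => H94.PN.SomeDtv A D ∧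
        Nat.card (H94.PN.SelC 2 1 c A D) = N).card := by
  have h : (((H94.PC.Sq F n).filter fun D => H94.PN.SomeDtv A D ∧
      Nat.card (H94.PN.SelC 2 1 c A D) = N : Finset F[X]) : Set F[X]) =
      {D : F[X] | TwistSelmer c A N n D} := by
    ext D
    rw [Finset.mem_coe, Finset.mem_filter, H94.PC.mem_Sq, ← and_assoc]
    change _ ↔ (_ ∧ _)
    rw [selmer_eq]
    rfl
  rw [← Set.ncard_coe_finset, h]
  rfl

/-- **Theorem.** -/
theorem result (F : Type) [Field F] [Finite F] [DecidableEq (RatFunc F)]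
    (h2 : (2 : F) ≠ 0) (m : ℕ) (hm3 : 3 ≤ m) (hm : Odd m)
    (A : Fin m → F[X]) (hA : ∀ i k, i ≠ k → A i ≠ A k)
    (hG : Generating A) (hd : ∃ v, Detecting A v) (c : F) (hc : c ≠ 0) (r : ℕ) :
    Filter.Tendsto (fun n : ℕ =>
      (Nat.card {D : F[X] // TwistSelmer c A (2 ^ (m - 1 + r)) n D} : ℝ) /
        (Nat.card {D : F[X] // Twist A n D} : ℝ)) Filter.atTop
      (nhds ((∏' i : ℕ, (1 + 1 / (2 : ℝ) ^ i))⁻¹ *
        ∏ i ∈ Finset.range r, (2 / ((2 : ℝ) ^ (i + 1) - 1)))) := by
  classical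
  have hm' : Nat.Coprime m 2 := hm.coprime_two_right
  have hα' : 2 ∣ 1 * m + 1 := by
    obtain ⟨a, ha⟩ := hm
    exact ⟨a + 1, by omega⟩
  have hq : 2 ∣ Nat.card F - 1 := by
    have : Fintype F := Fintype.ofFinite F
    have h := FiniteField.odd_card_of_char_ne_two (F := F) (fun h => by
      have := ringChar.of_eq h
      exact h2 (by exact_mod_cast CharP.cast_eq_zero F 2))
    rw [Nat.card_eq_fintype_card]
    obtain ⟨j, hj⟩ := Nat.odd_iff.2 h
    exact ⟨j, by omega⟩
  have hG' : H94.PN.GenA 2 A := H94.PN.genF_A hm' hG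
  rw [Metric.tendsto_atTop]
  intro ε hε
  obtain ⟨N, hN⟩ := H94.PN.all2 hq hm' hm3 hα' hc hA hG' r (ε / 2) (by positivity)
  have hq3 : 3 ≤ Nat.card F := by
    have h4 : 2 ≤ Nat.card F := Finite.one_lt_card
    omega
  have hdl : H94.PL.dl A ≠ 0 := H94.PM.wl2_dl0 hA
  obtain ⟨κ, hκ, N', hN'⟩ := H94.PM.card_Cls_ge3 (F := F) hq3 (H94.PL.dl A) hdl
  refine ⟨max N N', fun n hn => ?_⟩
  have h1 := hN n ((le_max_left _ _).trans hn)
  have h3 := hN' n ((le_max_right _ _).trans hn)
  have h4 : ((H94.PL.Cls (H94.PL.dl A) n).card : ℝ) ≤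
      (((H94.PC.Sq F n).filter fun D => H94.PN.SomeDtv A D).card : ℝ) := by
    refine Nat.cast_le.2 (Finset.card_le_card fun D hD => ?_)
    rw [H94.PL.mem_Cls] at hD
    rw [Finset.mem_filter, H94.PC.mem_Sq]
    refine ⟨⟨hD.1, hD.2.1, hD.2.2.1⟩, ?_⟩
    obtain ⟨v, hv⟩ := hd
    refine ⟨v, hv, fun hvD => ?_⟩
    obtain ⟨i, k, hik, h6, -⟩ := hv.2
    have hv1 : v ∣ A i - A k := by
      by_contra h
      exact h6 (by rw [multiplicity_eq_zero.2 h]; exact dvd_zero 2)
    have hv2 : v ∣ H94.PL.dl A := H94.PM.wl2_dvd hik hv1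
    obtain ⟨a, b, hab⟩ := hD.2.2.2
    exact hv.1.not_isUnit (isUnit_of_dvd_one (hab ▸ dvd_add (hvD.mul_left a) (hv2.mul_left b)))
  have hT : (0 : ℝ) < (((H94.PC.Sq F n).filter fun D => H94.PN.SomeDtv A D).card : ℝ) := by
    have h5 : (0 : ℝ) < Nat.card F := by
      have : 0 < Nat.card F := by omega
      exact_mod_cast this
    have h9 : 0 < κ * (Nat.card F : ℝ) ^ n := by positivity
    linarith
  rw [card_twist, card_twistSelmer, Real.dist_eq]
  have h7 : |(((H94.PC.Sq F n).filter fun D => H94.PN.SomeDtv A D ∧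
      Nat.card (H94.PN.SelC 2 1 c A D) = 2 ^ (m - 1 + r)).card : ℝ) /
        (((H94.PC.Sq F n).filter fun D => H94.PN.SomeDtv A D).card : ℝ) -
      (∏' i : ℕ, (1 + 1 / (2 : ℝ) ^ i))⁻¹ *
        ∏ i ∈ Finset.range r, (2 / ((2 : ℝ) ^ (i + 1) - 1))| *
        (((H94.PC.Sq F n).filter fun D => H94.PN.SomeDtv A D).card : ℝ) ≤
      ε / 2 * (((H94.PC.Sq F n).filter fun D => H94.PN.SomeDtv A D).card : ℝ) := by
    rw [← abs_of_pos hT, ← abs_mul, abs_of_pos hT, sub_mul, div_mul_cancel₀ _ hT.ne']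
    exact h1
  have h8 := le_of_mul_le_mul_right h7 hT
  linarith

end Pool.Agent.Results.MP_1bad5e_ag.QuadraticTwists
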