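import Pool.Agent.H94.PM.FIN2

/-!
# MP_1bad5e_ag: `2`-Selmer groups of all quadratic twists `D z ^ 2 = ∏ (x - A_k)`

`F` is a finite field with `q` elements, `q` odd, `K = F(t)`, `m ≥ 3` odd, `A_1, ..., A_m ∈ F[t]`
distinct. Call a pair `{i, k}` detected if some irreducible polynomial divides `A_i - A_k` with odd
multiplicity and divides no other difference, and assume that the graph of the detected pairs on
`{1, ..., m}` is connected. For `c ∈ F^*` and `D ∈ F[t]` let `J_D` be the Jacobian of the curve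
`c D z ^ 2 = (x - A_1) ... (x - A_m)` over `K`. Its `2`-Selmer group is a subgroup of
`(K^*/K^{*2})^m`, and contains the image of `J_D(K)[2]`, of order `2 ^ (m - 1)`.

Theorem: let `D` run through all monic squarefree polynomials of degree `n`, prime to all
`A_i - A_k`. Then, for `n → ∞`, for at least `1/6 - ε` of these `D` the `2`-Selmer group is the
image of `J_D(K)[2]`.

Proof: the dimension of a group containing the Selmer group has, for half of the `D`, the parity
of the dimension of `J_D(K)[2]` (quadratic forms on the local and global cohomology, Steinberg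
relations); the average of its order over these `D` is at most `3 * 2 ^ (m - 1) + o(1)`.
-/

namespace Pool.Agent.Results.MP_1bad5e_ag.QuadraticTwists

open Polynomial IsDedekindDomain

/-- `(P, Q)` represents, over the field `M`, an effective divisor on `D z ^ 2 = ∏ (x - A_k)`
which is disjoint from the points `(A_k, 0)`: the points with `P(x) = 0` and `z = Q(x)`. -/
def IsMumford {M : Type} [Field M] {m : ℕ} (D : M) (A : Fin m → M) (P Q : M[X]) : Prop :=
  P.Monic ∧ (∀ k, P.eval (A k) ≠ 0) ∧ P ∣ C D * Q ^ 2 - ∏ k, (X - C (A k))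

/-- The component `k` of the descent map on this divisor: the product of the values of
`D (x - A_k)` over its points. -/
noncomputable def descent {M : Type} [Field M] (D : M) (P : M[X]) (a : M) : M :=
  (-D) ^ P.natDegree * P.eval a

/-- `δ ∈ (M^*)^m` is in the image of the descent map over `M`, up to squares: the product of
the values on finitely many of the divisors above. -/
def IsValue {M : Type} [Field M] {m : ℕ} (D : M) (A δ : Fin m → M) : Prop :=
  ∃ (r : ℕ) (P Q : Fin r → M[X]) (γ : Fin m → M),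
    (∀ i, IsMumford D A (P i) (Q i)) ∧ (∀ k, γ k ≠ 0) ∧
      ∀ k, δ k * γ k ^ 2 = ∏ i, descent D (P i) (A k)

/-- `δ ∈ (K^*)^m` has product a square and is in the image of the descent map over all
completions of `K = F(t)`: those at the primes of `F[t]` and the one at infinity. -/
structure IsSelmer {F : Type} [Field F] [DecidableEq (RatFunc F)] {m : ℕ}
    (D : RatFunc F) (A δ : Fin m → RatFunc F) : Prop where
  ne_zero : ∀ k, δ k ≠ 0
  product : ∃ y : RatFunc F, ∏ k, δ k = y ^ 2
  finite : ∀ v : HeightOneSpectrum F[X],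
    IsValue (algebraMap (RatFunc F) (v.adicCompletion (RatFunc F)) D)
      (fun k => algebraMap (RatFunc F) (v.adicCompletion (RatFunc F)) (A k))
      (fun k => algebraMap (RatFunc F) (v.adicCompletion (RatFunc F)) (δ k))
  infinity : IsValue (algebraMap (RatFunc F) (RatFunc.CompletionAtInfty F) D)
      (fun k => algebraMap (RatFunc F) (RatFunc.CompletionAtInfty F) (A k))
      (fun k => algebraMap (RatFunc F) (RatFunc.CompletionAtInfty F) (δ k))

/-- `δ` is, up to squares, in the image of the group generated by the classes `T_k` of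
`(A_k, 0)` minus the point at infinity; the image of `∑ s_k T_k`, where `2 ∣ ∑ s_k`, has the
components `(-D) ^ {s_k} ∏_{i ≠ k} (A_k - A_i) ^ {s_i - s_k}`. (The relation `∑ T_k = 0` allows to
assume `2 ∣ ∑ s_k`, as `m` is odd.) -/
def IsTorsionClass {F : Type} [Field F] {m : ℕ} (D : RatFunc F)
    (A δ : Fin m → RatFunc F) : Prop :=
  ∃ s : Fin m → ℤ, 2 ∣ ∑ k, s k ∧ ∀ k, ∃ y : RatFunc F, y ≠ 0 ∧
    δ k = (-D) ^ s k * (∏ i ∈ Finset.univ.erase k, (A k - A i) ^ (s i - s k)) * y ^ 2

/-- The `2`-Selmer group of the Jacobian of `D z ^ 2 = ∏ (x - A_k)` is the image of the group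
generated by the `T_k`. -/
def SelmerIsTorsion {F : Type} [Field F] [DecidableEq (RatFunc F)] {m : ℕ}
    (D : RatFunc F) (A : Fin m → RatFunc F) : Prop :=
  ∀ δ : Fin m → RatFunc F, IsSelmer D A δ ↔ IsTorsionClass D A δ

/-- `∏_{i < k} (A_i - A_k)` -/
noncomputable def disc {F : Type} [Field F] {m : ℕ} (A : Fin m → F[X]) : F[X] :=
  ∏ p ∈ (Finset.univ : Finset (Fin m × Fin m)).filter (fun p => p.1 < p.2), (A p.1 - A p.2)

/-- The twisting polynomials of degree `n`: monic, squarefree and prime to all `A_i - A_k`. -/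
def Twist {F : Type} [Field F] {m : ℕ} (A : Fin m → F[X]) (n : ℕ) (D : F[X]) : Prop :=
  D.Monic ∧ D.natDegree = n ∧ Squarefree D ∧ IsCoprime D (disc A)

/-- Some irreducible polynomial divides `A_i - A_k` with odd multiplicity and divides no
other difference. -/
def Detected {F : Type} [Field F] {m : ℕ} (A : Fin m → F[X]) (i k : Fin m) : Prop :=
  i ≠ k ∧ ∃ v : F[X], Irreducible v ∧ ¬ 2 ∣ multiplicity v (A i - A k) ∧
    ∀ a b, a ≠ b → ¬ (a = i ∧ b = k) → ¬ (a = k ∧ b = i) → ¬ v ∣ A a - A b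

theorem descent_eq {M : Type} [Field M] (D : M) (P : M[X]) (a : M) :
    descent D P a = H94.PM.dvn 1 D P a := by
  rw [descent, H94.PM.dvn, pow_one]

theorem value_iff {M : Type} [Field M] {m : ℕ} (D : M) (A δ : Fin m → M) :
    IsValue D A δ ↔ H94.PM.IsVln 2 1 D A δ := by
  constructor
  · rintro ⟨r, P, Q, γ, h1, h2, h3⟩
    exact ⟨r, P, Q, γ, h1, h2, fun k => (h3 k).trans
      (Finset.prod_congr rfl fun i _ => descent_eq D (P i) (A k))⟩
  · rintro ⟨r, P, Q, γ, h1, h2, h3⟩
    exact ⟨r, P, Q, γ, h1, h2, fun k => (h3 k).trans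
      (Finset.prod_congr rfl fun i _ => (descent_eq D (P i) (A k)).symm)⟩

theorem selmer_iff {F : Type} [Field F] [DecidableEq (RatFunc F)] {m : ℕ} (c : F)
    (A : Fin m → F[X]) (D : F[X]) (δ : Fin m → RatFunc F) :
    IsSelmer (algebraMap F[X] (RatFunc F) (C c * D))
      (fun k => algebraMap F[X] (RatFunc F) (A k)) δ ↔ H94.PM.IsSln 2 1 c A D δ :=
  ⟨fun h => ⟨h.1, h.2, fun v => (value_iff _ _ _).1 (h.3 v), (value_iff _ _ _).1 h.4⟩,
    fun h => ⟨h.1, h.2, fun v => (value_iff _ _ _).2 (h.3 v), (value_iff _ _ _).2 h.4⟩⟩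

/-- **Theorem.** -/
theorem result (F : Type) [Field F] [Finite F] [DecidableEq (RatFunc F)] (h2 : (2 : F) ≠ 0)
    (m : ℕ) (hm : Odd m) (hm3 : 3 ≤ m) (A : Fin m → F[X]) (hA : ∀ i k, i ≠ k → A i ≠ A k)
    (hconn : ∀ i k, Relation.ReflTransGen (Detected A) i k)
    (c : F) (hc : c ≠ 0) (ε : ℝ) (hε : 0 < ε) :
    ∃ κ : ℝ, 0 < κ ∧ ∃ N : ℕ, ∀ n ≥ N,
      κ * (Nat.card F : ℝ) ^ n ≤ (Nat.card {D : F[X] // Twist A n D} : ℝ) ∧
      (1 / 6 - ε) * (Nat.card {D : F[X] // Twist A n D} : ℝ) ≤
        (Nat.card {D : F[X] // Twist A n D ∧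
          SelmerIsTorsion (algebraMap F[X] (RatFunc F) (C c * D))
            (fun k => algebraMap F[X] (RatFunc F) (A k))} : ℝ) := by
  classical
  have hq : 2 ∣ Nat.card F - 1 := by
    haveI : Fintype F := Fintype.ofFinite F
    have h := FiniteField.odd_card_of_char_ne_two (F := F) (fun h => by
      haveI := ringChar.of_eq h
      exact h2 (by exact_mod_cast CharP.cast_eq_zero F 2))
    rw [Nat.card_eq_fintype_card]
    obtain ⟨j, hj⟩ := Nat.odd_iff.2 h
    exact ⟨j, by omega⟩
  have hα : 2 ∣ 1 * m + 1 := by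
    obtain ⟨j, hj⟩ := hm
    exact ⟨j + 1, by omega⟩
  have hm' : Nat.Coprime m 2 := Nat.Coprime.symm (Nat.coprime_two_left.2 hm)
  obtain ⟨κ, hκ, N, hN⟩ := H94.PM.main2 hq hm' hm3 hα hc hA hconn ε hε
  refine ⟨κ, hκ, N, fun n hn => ?_⟩
  obtain ⟨h1, h3⟩ := hN n hn
  have e1 : Nat.card {D : F[X] // Twist A n D} = (H94.PL.Cls (H94.PL.dl A) n).card := by
    have : (H94.PL.Cls (H94.PL.dl A) n : Set F[X]) = {D : F[X] | Twist A n D} := by
      ext D; rw [Finset.mem_coe, H94.PL.mem_Cls]; rfl
    rw [← Set.ncard_coe_finset, this]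
    rfl
  rw [e1]
  refine ⟨h1, h3.trans ?_⟩
  have e2 : ((H94.PL.Cls (H94.PL.dl A) n).filter fun D =>
      ∀ δ, H94.PM.IsSln 2 1 c A D δ ↔ H94.PM.IsTcn 2 c A D δ).card ≤
      Nat.card {D : F[X] // Twist A n D ∧
          SelmerIsTorsion (algebraMap F[X] (RatFunc F) (C c * D))
            (fun k => algebraMap F[X] (RatFunc F) (A k))} := by
    rw [← Set.ncard_coe_finset]
    refine Set.ncard_le_ncard (t := {D : F[X] | Twist A n D ∧
          SelmerIsTorsion (algebraMap F[X] (RatFunc F) (C c * D))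
            (fun k => algebraMap F[X] (RatFunc F) (A k))}) ?_ ?_
    · intro D hD
      rw [Finset.mem_coe, Finset.mem_filter, H94.PL.mem_Cls] at hD
      refine ⟨hD.1, fun δ => ?_⟩
      rw [selmer_iff]
      exact hD.2 δ
    · exact (H94.PL.finite_Cl (H94.PL.dl A) n).subset fun D hD => hD.1
  exact_mod_cast e2

end Pool.Agent.Results.MP_1bad5e_ag.QuadraticTwists
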